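import Pool.Agent.H140.JQ.Jac

/-! Exact evaluation of the Jacobi sums of order `q`. -/

namespace Pool.Agent.H140.JQ

open NumberField Finset Polynomial Pool.Agent.H140.FJ

section
variable {q : ℕ} [hq : Fact q.Prime]

theorem lam_dvd_powq (c : ℕ) : zq q - 1 ∣ zq q ^ c - 1 := by
  have := sub_dvd_pow_sub_pow (zq q) 1 c
  rwa [one_pow] at this

theorem pow_mod_lam (c : ℕ) : (zq q - 1) ^ 2 ∣ zq q ^ c - (1 + c * (zq q - 1)) := by
  have h1 : zq q ^ c - (1 + c * (zq q - 1)) = (zq q - 1) * ∑ i ∈ range c, (zq q ^ i - 1) := by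
    have hg := mul_geom_sum (zq q) c
    rw [Finset.sum_sub_distrib, Finset.sum_const, card_range, nsmul_eq_mul, mul_one]
    linear_combination (-1 : Oq q) * hg
  rw [h1, pow_two]
  exact mul_dvd_mul_left _ (Finset.dvd_sum fun i _ => lam_dvd_powq i)

theorem lam_dvd_q : zq q - 1 ∣ (q : Oq q) := by
  have h : (1 : ZMod q) ≠ 0 := one_ne_zero
  have := sub_one_dvd h
  rwa [E_one (zq_full q)] at this

theorem lam_sq_dvd_q (h2 : q ≠ 2) : (zq q - 1) ^ 2 ∣ (q : Oq q) := by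
  have h1 : (zq q - 1) ^ 2 ∣ ∑ i ∈ range q, (zq q ^ i - (1 + i * (zq q - 1))) :=
    Finset.dvd_sum fun i _ => pow_mod_lam i
  obtain ⟨m, hm⟩ := q_odd h2
  have h3 : ∑ i ∈ range q, i = q * m := by
    have := Finset.sum_range_id_mul_two q
    have h4 : q - 1 = 2 * m := by omega
    rw [h4] at this
    apply Nat.eq_of_mul_eq_mul_right (show 0 < 2 by norm_num)
    rw [this]; ring
  have h4 : ∑ i ∈ range q, ((i : ℕ) : Oq q) = q * m := by
    rw [← Nat.cast_sum, h3, Nat.cast_mul]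
  rw [Finset.sum_sub_distrib, zq_sum, Finset.sum_add_distrib, Finset.sum_const, card_range,
    nsmul_eq_mul, mul_one, ← Finset.sum_mul, h4] at h1
  have h5 : (zq q - 1) ^ 2 ∣ (q : Oq q) * m * (zq q - 1) := by
    rw [pow_two]
    exact mul_dvd_mul (Dvd.dvd.mul_right lam_dvd_q _) (dvd_refl _)
  have h6 := dvd_add h1 h5
  rw [show (0 : Oq q) - (q + q * m * (zq q - 1)) + q * m * (zq q - 1) = -q by ring] at h6
  exact (dvd_neg).mp h6

theorem lam_not_unitq : ¬ IsUnit (zq q - 1) := by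
  obtain ⟨ψ, hψ⟩ := exists_liftq q (1 : ZMod q) (by simp)
  intro h
  have h1 := h.map ψ
  rw [map_sub, hψ, map_one, sub_self] at h1
  exact not_isUnit_zero h1

theorem lam_not_dvd {c : ℤ} (hc : IsCoprime c q) : ¬ zq q - 1 ∣ (c : Oq q) := by
  intro h
  apply lam_not_unitq (q := q)
  have h1 : IsCoprime (c : Oq q) (q : Oq q) := by
    have := hc.map (Int.castRingHom (Oq q))
    simpa using this
  exact h1.isUnit_of_dvd' h lam_dvd_q

theorem lam_ne : zq q - 1 ≠ 0 := by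
  intro h
  exact (zq_prim q).ne_one hq.out.one_lt (sub_eq_zero.mp h)

theorem eq_one_of_lam_sq {c : ℕ} (h : (zq q - 1) ^ 2 ∣ zq q ^ c - 1) : zq q ^ c = 1 := by
  have h1 := dvd_sub h (pow_mod_lam c)
  rw [show zq q ^ c - 1 - (zq q ^ c - (1 + c * (zq q - 1))) = c * (zq q - 1) by ring, pow_two] at h1
  have h2 : zq q - 1 ∣ (c : Oq q) := (mul_dvd_mul_iff_right lam_ne).mp h1
  by_contra hne
  have h3 : ¬ q ∣ c := by
    intro hd
    exact hne (((zq_prim q).pow_eq_one_iff_dvd c).mpr hd)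
  have h4 : IsCoprime (c : ℤ) (q : ℤ) := by
    rw [isCoprime_comm]
    apply (Nat.prime_iff_prime_int.mp hq.out).coprime_iff_not_dvd.mpr
    intro h5
    exact h3 (by exact_mod_cast h5)
  apply lam_not_dvd h4
  rw [Int.cast_natCast]
  exact h2

theorem sign_eq (h2 : q ≠ 2) {s : Oq q} (hs : s = 1 ∨ s = -1) (h : zq q - 1 ∣ 1 + s) : s = -1 := by
  rcases hs with hs | hs
  · exfalso
    rw [hs] at h
    have h4 : IsCoprime (2 : ℤ) (q : ℤ) := by
      rw [isCoprime_comm]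
      apply (Nat.prime_iff_prime_int.mp hq.out).coprime_iff_not_dvd.mpr
      intro h5
      have h6 : q ∣ 2 := by exact_mod_cast h5
      have h7 := Nat.le_of_dvd (by norm_num) h6
      have := three_le h2
      omega
    apply lam_not_dvd h4
    push_cast
    rwa [show (1 : Oq q) + 1 = 2 by norm_num] at h
  · exact hs

variable {p : ℕ} [hpf : Fact p.Prime] {A B : ℤ} (D : Dat q p A B)

theorem term_dvdq {a b : ℕ} (ha : a ≠ 0) (hb : b ≠ 0) (x : ZMod p) :
    (zq q - 1) ^ 2 ∣ ((chiq D ^ a) x - 1) * ((chiq D ^ b) (1 - x) - 1) := by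
  by_cases hx : x = 0
  · rw [hx, sub_zero, MulChar.map_one, sub_self, mul_zero]; exact dvd_zero _
  by_cases hx1 : 1 - x = 0
  · have : x = 1 := (sub_eq_zero.mp hx1).symm
    rw [this, MulChar.map_one, sub_self, zero_mul]; exact dvd_zero _
  have key : ∀ (y : ZMod p) (_ : y ≠ 0) (c : ℕ) (_ : c ≠ 0), zq q - 1 ∣ (chiq D ^ c) y - 1 := by
    intro y hy c hc
    have hu : ((Units.mk0 y hy : (ZMod p)ˣ) : ZMod p) = y := rfl
    obtain ⟨e, he⟩ := chiq_val D (Units.mk0 y hy)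
    rw [MulChar.pow_apply' _ hc, ← hu, he, ← pow_mul]
    exact lam_dvd_powq _
  rw [pow_two]
  exact mul_dvd_mul (key x hx a ha) (key (1 - x) hx1 b hb)

theorem jac_modq {a b : ℕ} (ha : (a : ZMod q) ≠ 0) (hb : (b : ZMod q) ≠ 0) :
    (zq q - 1) ^ 2 ∣ jacobiSum (chiq D ^ a) (chiq D ^ b) + 1 := by
  have ha0 : a ≠ 0 := by rintro rfl; simp at ha
  have hb0 : b ≠ 0 := by rintro rfl; simp at hb
  have h1 : ∑ x : ZMod p, ((chiq D ^ a) x - 1) * ((chiq D ^ b) (1 - x) - 1)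
      = jacobiSum (chiq D ^ a) (chiq D ^ b) + p := by
    have e1 : ∑ x : ZMod p, (chiq D ^ a) x = 0 := MulChar.sum_eq_zero_of_ne_one (chiq_pow_ne D a ha)
    have e2 : ∑ x : ZMod p, (chiq D ^ b) (1 - x) = 0 := by
      rw [← MulChar.sum_eq_zero_of_ne_one (chiq_pow_ne D b hb)]
      exact Fintype.sum_equiv (Equiv.subLeft (1 : ZMod p)) _ _ (fun x => rfl)
    have e3 : ∑ x : ZMod p, (1 : Oq q) = p := by
      rw [Finset.sum_const, Finset.card_univ, ZMod.card, nsmul_eq_mul, mul_one]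
    have e4 : ∀ x : ZMod p, ((chiq D ^ a) x - 1) * ((chiq D ^ b) (1 - x) - 1)
        = (chiq D ^ a) x * (chiq D ^ b) (1 - x) - (chiq D ^ a) x - (chiq D ^ b) (1 - x) + 1 :=
      fun x => by ring
    simp_rw [e4]
    rw [Finset.sum_add_distrib, Finset.sum_sub_distrib, Finset.sum_sub_distrib, e1, e2, e3,
      jacobiSum]
    ring
  have h2 : (zq q - 1) ^ 2 ∣ jacobiSum (chiq D ^ a) (chiq D ^ b) + p := by
    rw [← h1]
    exact Finset.dvd_sum fun x _ => term_dvdq D ha0 hb0 x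
  have h3 : (zq q - 1) ^ 2 ∣ (p : Oq q) - 1 := by
    refine dvd_trans (lam_sq_dvd_q D.h2) ?_
    have h4 := q_dvd D
    have h5 : (q : Oq q) ∣ ((p - 1 : ℕ) : Oq q) := by exact_mod_cast Nat.cast_dvd_cast h4
    rwa [Nat.cast_sub D.hp.one_lt.le, Nat.cast_one] at h5
  have := dvd_sub h2 h3
  rwa [show jacobiSum (chiq D ^ a) (chiq D ^ b) + (p : Oq q) - ((p : Oq q) - 1)
    = jacobiSum (chiq D ^ a) (chiq D ^ b) + 1 by ring] at this

end

/-- the exponent `B / (A - B)` modulo `q` -/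
noncomputable def bet (q : ℕ) [hq : Fact q.Prime] (A B : ℤ) : ZMod q := (B : ZMod q) * ((A - B : ℤ) : ZMod q)⁻¹

/-- the normalised prime elements -/
noncomputable def rho (q : ℕ) [hq : Fact q.Prime] (A B : ℤ) (t : (ZMod q)ˣ) : Oq q :=
  E (zq q) (bet q A B * ((t⁻¹ : (ZMod q)ˣ) : ZMod q)) * prq q A B t

section
variable {q : ℕ} [hq : Fact q.Prime] {A B : ℤ}

theorem bet_mul (hn : ¬ (q : ℤ) ∣ A - B) : bet q A B * ((A - B : ℤ) : ZMod q) = B := by
  rw [bet, mul_assoc, inv_mul_cancel₀, mul_one]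
  rw [Ne, ZMod.intCast_zmod_eq_zero_iff_dvd]
  exact hn

theorem rho_mod (h2 : q ≠ 2) (hn : ¬ (q : ℤ) ∣ A - B) (t : (ZMod q)ˣ) :
    (zq q - 1) ^ 2 ∣ rho q A B t - ((A : Oq q) - B) := by
  set s : ZMod q := ((t⁻¹ : (ZMod q)ˣ) : ZMod q) with hs
  set v : ℕ := (bet q A B * s).val with hv
  have e1 : rho q A B t = (A : Oq q) * zq q ^ v - (B : Oq q) * zq q ^ (v + s.val) := by
    rw [rho, prq, ← hs, E, ← hv, E, pow_add]
    ring
  have h3 : (q : ℤ) ∣ (v : ℤ) * (A - B) - (s.val : ℤ) * B := by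
    rw [← ZMod.intCast_zmod_eq_zero_iff_dvd]
    push_cast
    rw [hv, ZMod.natCast_zmod_val, ZMod.natCast_zmod_val]
    have := bet_mul hn
    push_cast at this
    linear_combination s * this
  obtain ⟨w, hw⟩ := h3
  have h4 : ((v : Oq q) * ((A : Oq q) - B) - (s.val : Oq q) * B) = q * w := by
    have := congrArg (Int.cast (R := Oq q)) hw
    push_cast at this
    exact this
  have h5 : (zq q - 1) ^ 2 ∣ (zq q - 1) * (q * w) :=
    Dvd.dvd.mul_left (Dvd.dvd.mul_right (lam_sq_dvd_q h2) _) _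
  have h6 : (zq q - 1) ^ 2 ∣ (A : Oq q) * (zq q ^ v - (1 + v * (zq q - 1))) :=
    Dvd.dvd.mul_left (pow_mod_lam v) _
  have h7 : (zq q - 1) ^ 2 ∣ (B : Oq q) * (zq q ^ (v + s.val) - (1 + (v + s.val : ℕ) * (zq q - 1))) :=
    Dvd.dvd.mul_left (pow_mod_lam _) _
  have h8 := dvd_add (dvd_sub h6 h7) h5
  rw [e1]
  convert h8 using 1
  push_cast
  linear_combination (zq q - 1) * h4

theorem prod_rho_mod (h2 : q ≠ 2) (hn : ¬ (q : ℤ) ∣ A - B) (T : Finset (ZMod q)ˣ) :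
    (zq q - 1) ^ 2 ∣ ∏ t ∈ T, rho q A B t - ((A : Oq q) - B) ^ T.card := by
  set I : Ideal (Oq q) := Ideal.span {(zq q - 1) ^ 2} with hI
  have h : ∀ t, Ideal.Quotient.mk I (rho q A B t) = Ideal.Quotient.mk I ((A : Oq q) - B) := by
    intro t
    rw [Ideal.Quotient.eq, hI, Ideal.mem_span_singleton]
    exact rho_mod h2 hn t
  rw [← Ideal.mem_span_singleton, ← hI, ← Ideal.Quotient.eq, map_prod, map_pow]
  rw [Finset.prod_congr rfl fun t _ => h t, Finset.prod_const]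

theorem card_TQ {a b : ZMod q} (ha : a ≠ 0) (hb : b ≠ 0) (hab : a + b ≠ 0) :
    2 * (TQ q a b).card = q - 1 := by
  have h1 : (TQ q a b).card = (TQ q a b)ᶜ.card := by
    refine Finset.card_bij' (fun t _ => -t) (fun t _ => -t) ?_ ?_ ?_ ?_
    · intro t ht
      rw [Finset.mem_compl, neg_mem_TQ ha hb hab]
      exact not_not.mpr ht
    · intro t ht
      rw [neg_mem_TQ ha hb hab]
      exact Finset.mem_compl.mp ht
    · intro t _; exact neg_neg t
    · intro t _; exact neg_neg t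
  have h2 := Finset.card_add_card_compl (TQ q a b)
  rw [← h1, ZMod.card_units_eq_totient, Nat.totient_prime hq.out] at h2
  omega

theorem prod_rho_sign (h2 : q ≠ 2) (hn : ¬ (q : ℤ) ∣ A - B) {a b : ZMod q} (ha : a ≠ 0)
    (hb : b ≠ 0) (hab : a + b ≠ 0) :
    (zq q - 1) ^ 2 ∣ ∏ t ∈ TQ q a b, rho q A B t - (legendreSym q (A - B) : Oq q) := by
  have h3 := prod_rho_mod h2 hn (TQ q a b)
  have hc := card_TQ ha hb hab
  have h4 : (TQ q a b).card = q / 2 := by
    have := (q_odd h2)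
    obtain ⟨m, hm⟩ := this
    omega
  have h5 : (q : ℤ) ∣ (A - B) ^ (TQ q a b).card - legendreSym q (A - B) := by
    rw [← ZMod.intCast_zmod_eq_zero_iff_dvd, h4]
    have := legendreSym.eq_pow q (A - B)
    push_cast at this ⊢
    rw [this, sub_self]
  have h6 : (zq q - 1) ^ 2 ∣ ((A : Oq q) - B) ^ (TQ q a b).card - (legendreSym q (A - B) : Oq q) := by
    refine dvd_trans (lam_sq_dvd_q h2) ?_
    obtain ⟨w, hw⟩ := h5
    have := congrArg (Int.cast (R := Oq q)) hw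
    push_cast at this
    exact ⟨w, this⟩
  have := dvd_add h3 h6
  rwa [sub_add_sub_cancel] at this

variable {p : ℕ} [hpf : Fact p.Prime] (D : Dat q p A B)

include D in
theorem leg_cases : (legendreSym q (A - B) = 1) ∨ (legendreSym q (A - B) = -1) := by
  apply legendreSym.eq_one_or_neg_one
  rw [Ne, ZMod.intCast_zmod_eq_zero_iff_dvd]
  exact D.hn

/-- **the Jacobi sums of order `q`** -/
theorem jac_exactq {a b : ℕ} (ha : (a : ZMod q) ≠ 0) (hb : (b : ZMod q) ≠ 0)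
    (hab : (a : ZMod q) + b ≠ 0) :
    jacobiSum (chiq D ^ a) (chiq D ^ b) =
      - (legendreSym q (A - B) : Oq q) * ∏ t ∈ TQ q (a : ZMod q) (b : ZMod q), rho q A B t := by
  obtain ⟨c, s, hs, hJ⟩ := jac_evalq D ha hb hab
  set T := TQ q (a : ZMod q) (b : ZMod q) with hT
  set ε : Oq q := (legendreSym q (A - B) : Oq q) with hε
  have hε1 : ε = 1 ∨ ε = -1 := by
    rcases leg_cases D with h | h
    · left; rw [hε, h]; norm_num
    · right; rw [hε, h]; norm_num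
  have hε2 : ε * ε = 1 := by rcases hε1 with h | h <;> rw [h] <;> norm_num
  -- collect the roots of unity
  obtain ⟨d, hd⟩ : ∃ d : ℕ, ∏ t ∈ T, rho q A B t = zq q ^ d * ∏ t ∈ T, prq q A B t := by
    refine ⟨∑ t ∈ T, (bet q A B * ((t⁻¹ : (ZMod q)ˣ) : ZMod q)).val, ?_⟩
    rw [← Finset.prod_pow_eq_pow_sum, ← Finset.prod_mul_distrib]
    rfl
  obtain ⟨c', hc'⟩ : ∃ c' : ℕ, zq q ^ c = zq q ^ c' * zq q ^ d := by
    refine ⟨c + d * (q - 1), ?_⟩
    rw [← pow_add, show c + d * (q - 1) + d = c + q * d by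
      have := hq.out.one_lt
      obtain ⟨q', hq'⟩ : ∃ q', q = q' + 1 := ⟨q - 1, by omega⟩
      rw [hq', Nat.add_sub_cancel]; ring, pow_add, pow_mul, zq_full, one_pow, mul_one]
  have hJ2 : jacobiSum (chiq D ^ a) (chiq D ^ b) = s * zq q ^ c' * ∏ t ∈ T, rho q A B t := by
    rw [hJ, hd, hc']; ring
  have h1 := jac_modq D ha hb
  have h2 := prod_rho_sign D.h2 D.hn ha hb hab
  rw [← hT, ← hε] at h2
  have h3 : (zq q - 1) ^ 2 ∣ s * ε * zq q ^ c' + 1 := by
    have e : s * ε * zq q ^ c' + 1 = (jacobiSum (chiq D ^ a) (chiq D ^ b) + 1)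
        - s * zq q ^ c' * (∏ t ∈ T, rho q A B t - ε) := by rw [hJ2]; ring
    rw [e]
    exact dvd_sub h1 (Dvd.dvd.mul_left h2 _)
  have h4 : s * ε = -1 := by
    apply sign_eq D.h2
    · rcases hs with h | h <;> rcases hε1 with h' | h' <;> rw [h, h'] <;> norm_num
    · have h5 : zq q - 1 ∣ s * ε * zq q ^ c' + 1 := dvd_trans (dvd_pow_self _ (by norm_num)) h3
      have h6 : zq q - 1 ∣ s * ε * (zq q ^ c' - 1) := Dvd.dvd.mul_left (lam_dvd_powq c') _
      have := dvd_sub h5 h6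
      rwa [show s * ε * zq q ^ c' + 1 - s * ε * (zq q ^ c' - 1) = 1 + s * ε by ring] at this
  rw [h4] at h3
  have h5 : zq q ^ c' = 1 := by
    apply eq_one_of_lam_sq
    have := (dvd_neg).mpr h3
    rwa [show -(-1 * zq q ^ c' + 1) = zq q ^ c' - 1 by ring] at this
  have h6 : s = -ε := by
    have : s * ε * ε = -1 * ε := by rw [h4]
    rw [mul_assoc, hε2, mul_one] at this
    rw [this]; ring
  rw [hJ2, h5, h6, mul_one]

end

end Pool.Agent.H140.JQ
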