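import Pool.Agent.H140.JQ.Red

/-! Statements over `ZMod N`, and the case of the Mersenne numbers. -/

namespace Pool.Agent.H140.JQ

open Finset Pool.Agent.H140.FJ

section
variable {q : ℕ} [hq : Fact q.Prime]

theorem sum_units_eq (F : ℕ → ℕ) :
    ∑ t : (ZMod q)ˣ, F (t : ZMod q).val = ∑ t ∈ Icc 1 (q - 1), F t := by
  have hq1 := hq.out.one_lt
  refine Finset.sum_bij' (fun t _ => (t : ZMod q).val)
    (fun k hk => Units.mk0 (k : ZMod q)
      (natCast_neq (mem_Icc.mp hk).1 (by have := (mem_Icc.mp hk).2; omega))) ?_ ?_ ?_ ?_ ?_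
  · intro t _
    rw [mem_Icc]
    have h1 := val_unit_pos t
    have h2 := ZMod.val_lt (t : ZMod q)
    omega
  · intro k _
    exact mem_univ _
  · intro t _
    apply Units.ext
    rw [Units.val_mk0, ZMod.natCast_zmod_val]
  · intro k hk
    rw [Units.val_mk0, ZMod.val_natCast_of_lt]
    have := (mem_Icc.mp hk).2
    omega
  · intro t _
    rfl

theorem prod_units_eq {R : Type*} [CommMonoid R] (F : ℕ → R) :
    ∏ t : (ZMod q)ˣ, F (t : ZMod q).val = ∏ t ∈ Icc 1 (q - 1), F t := by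
  have hq1 := hq.out.one_lt
  refine Finset.prod_bij' (fun t _ => (t : ZMod q).val)
    (fun k hk => Units.mk0 (k : ZMod q)
      (natCast_neq (mem_Icc.mp hk).1 (by have := (mem_Icc.mp hk).2; omega))) ?_ ?_ ?_ ?_ ?_
  · intro t _
    rw [mem_Icc]
    have h1 := val_unit_pos t
    have h2 := ZMod.val_lt (t : ZMod q)
    omega
  · intro k _
    exact mem_univ _
  · intro t _
    apply Units.ext
    rw [Units.val_mk0, ZMod.natCast_zmod_val]
  · intro k hk
    rw [Units.val_mk0, ZMod.val_natCast_of_lt]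
    have := (mem_Icc.mp hk).2
    omega
  · intro t _
    rfl

theorem inv_val (t : (ZMod q)ˣ) :
    ((t⁻¹ : (ZMod q)ˣ) : ZMod q) = (((t : ZMod q).val : ZMod q))⁻¹ := by
  rw [ZMod.natCast_zmod_val, Units.val_inv_eq_inv_val]

theorem inv_inv_val (t : (ZMod q)ˣ) :
    (t : ZMod q) = ((((t⁻¹ : (ZMod q)ˣ) : ZMod q).val : ZMod q))⁻¹ := by
  rw [← inv_val, inv_inv]

theorem sum_units_inv (F : (ZMod q)ˣ → ℕ) :
    ∑ t : (ZMod q)ˣ, F t = ∑ t : (ZMod q)ˣ, F t⁻¹ :=
  (Fintype.sum_equiv (Equiv.inv _) _ _ fun _ => rfl).symm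

theorem prod_units_inv {R : Type*} [CommMonoid R] (F : (ZMod q)ˣ → R) :
    ∏ t : (ZMod q)ˣ, F t = ∏ t : (ZMod q)ˣ, F t⁻¹ :=
  (Fintype.prod_equiv (Equiv.inv _) _ _ fun _ => rfl).symm

end

section
variable {q : ℕ} [hq : Fact q.Prime] {A B : ℤ} {N : ℕ}

theorem isUnit_B (hc : IsCoprime A B) (hN : (A - B) * N = A ^ q - B ^ q) :
    IsUnit (B : ZMod N) := by
  have h1 : IsCoprime (A ^ q) B := hc.pow_left
  have h2 : IsCoprime (A ^ q - B ^ q) B := by
    have : A ^ q - B ^ q = A ^ q + B * (-B ^ (q - 1)) := by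
      obtain ⟨k, hk⟩ : ∃ k, q = k + 1 := ⟨q - 1, by have := hq.out.pos; omega⟩
      rw [hk, Nat.add_sub_cancel, pow_succ B k]; ring
    rw [this]
    exact h1.add_mul_left_left _
  rw [← hN] at h2
  have h3 : IsCoprime (N : ℤ) B := h2.of_mul_left_right
  exact (ZMod.coe_int_isUnit_iff_isCoprime B N).mpr h3

theorem gq_one {g : ZMod N} (hg : g * B = A) (hc : IsCoprime A B)
    (hN : (A - B) * N = A ^ q - B ^ q) : g ^ q = 1 := by
  have hu := (isUnit_B hc hN).pow q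
  have h2 := congrArg (Int.cast (R := ZMod N)) hN
  push_cast at h2
  rw [ZMod.natCast_self, mul_zero] at h2
  apply hu.mul_right_cancel
  rw [← mul_pow, hg, one_mul]
  linear_combination -h2

theorem legendre_unit (hn : ¬ (q : ℤ) ∣ A - B) {R : Type*} [CommRing R] :
    IsUnit (-(legendreSym q (A - B) : R)) := by
  have : (legendreSym q (A - B) = 1) ∨ (legendreSym q (A - B) = -1) := by
    apply legendreSym.eq_one_or_neg_one
    rw [Ne, ZMod.intCast_zmod_eq_zero_iff_dvd]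
    exact hn
  rcases this with h | h <;> rw [h] <;> simp

/-- the binomial coefficients over `ZMod N` -/
theorem binom_general (h2 : q ≠ 2) (hc : IsCoprime A B) (hn : ¬ (q : ℤ) ∣ A - B)
    (hN : (A - B) * N = A ^ q - B ^ q) {g : ZMod N} (hg : g * B = A) (hp : N.Prime)
    {a b : ℕ} (ha : 1 ≤ a) (hb : 1 ≤ b) (hab : a + b < q) :
    ((((a + b) * ((N - 1) / q)).choose (a * ((N - 1) / q)) : ℕ) : ZMod N) =
      (legendreSym q (A - B) : ZMod N) *
        ∏ t ∈ univ.filter (fun t : (ZMod q)ˣ =>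
            q < ((t : ZMod q) * (a : ZMod q)).val + ((t : ZMod q) * (b : ZMod q)).val),
          g ^ (((B : ZMod q) / ((A : ZMod q) - (B : ZMod q))) * (t : ZMod q)⁻¹).val *
            ((A : ZMod N) - (B : ZMod N) * g ^ ((t : ZMod q)⁻¹).val) := by
  have : Fact N.Prime := ⟨hp⟩
  have D : Dat q N A B := ⟨h2, hp, hc, hn, hN⟩
  have h := choose_evalq D ha hb hab
  have hgg : gg N A B = g := by
    have hB : IsUnit (B : ZMod N) := isUnit_B hc hN
    apply hB.mul_right_cancel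
    rw [hg, gg_mul D]
  have hM : Mq q N = (N - 1) / q := rfl
  rw [hgg, hM] at h
  rw [h]
  congr 1
  refine Finset.prod_congr ?_ ?_
  · ext t
    rw [mem_compl, mem_TQ, mem_filter, not_lt]
    have hne : ((t : ZMod q) * (a : ZMod q)).val + ((t : ZMod q) * (b : ZMod q)).val ≠ q := by
      intro h
      have h1 : (((t : ZMod q) * (a : ZMod q)).val + ((t : ZMod q) * (b : ZMod q)).val : ℕ)
        = (0 : ZMod q) := by rw [h, ZMod.natCast_self]
      push_cast at h1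
      rw [ZMod.natCast_zmod_val, ZMod.natCast_zmod_val, ← mul_add] at h1
      have h3 : ((a : ZMod q) + (b : ZMod q)) ≠ 0 := by
        rw [← Nat.cast_add]; exact natCast_neq (by omega) hab
      exact (mul_ne_zero (unit_ne t) h3) h1
    constructor
    · intro h; exact ⟨mem_univ _, by omega⟩
    · intro h; exact h.2.le
  · intro t _
    rw [fac, E, E, Units.val_inv_eq_inv_val, bet, div_eq_mul_inv, Int.cast_sub]

/-- the factorial criterion over `ZMod N` -/
theorem criterion_general (h2 : q ≠ 2) (hc : IsCoprime A B) (hn : ¬ (q : ℤ) ∣ A - B)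
    (hN : (A - B) * N = A ^ q - B ^ q) (hN1 : 1 < N) {g : ZMod N} (hg : g * B = A) :
    N.Prime ↔ ((((N - 1) / q).factorial : ℕ) : ZMod N) ^ q *
        g ^ (-((B : ZMod q) / ((A : ZMod q) - (B : ZMod q)))).val *
        ∏ t : (ZMod q)ˣ, ((A : ZMod N) - (B : ZMod N) * g ^ ((t : ZMod q)⁻¹).val) ^
          ((t : ZMod q).val - 1) = -(legendreSym q (A - B) : ZMod N) := by
  constructor
  · intro hp
    have : Fact N.Prime := ⟨hp⟩
    have D : Dat q N A B := ⟨h2, hp, hc, hn, hN⟩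
    have hgg : gg N A B = g := by
      have hB : IsUnit (B : ZMod N) := isUnit_B hc hN
      apply hB.mul_right_cancel
      rw [hg, gg_mul D]
    have h := fact_evalq D
    have hM : Mq q N = (N - 1) / q := rfl
    rw [hgg, hM] at h
    rw [← h]
    congr 1
    · rw [E, bet, div_eq_mul_inv, Int.cast_sub]
    · refine Finset.prod_congr rfl fun t _ => ?_
      rw [E, Units.val_inv_eq_inv_val]
  · intro h
    apply prime_of_unitq hc hn hN hN1
    have h1 : IsUnit (((((N - 1) / q).factorial : ℕ) : ZMod N) ^ q *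
        g ^ (-((B : ZMod q) / ((A : ZMod q) - (B : ZMod q)))).val *
        ∏ t : (ZMod q)ˣ, ((A : ZMod N) - (B : ZMod N) * g ^ ((t : ZMod q)⁻¹).val) ^
          ((t : ZMod q).val - 1)) := by
      rw [h]; exact legendre_unit hn
    rw [mul_assoc] at h1
    exact (isUnit_pow_iff hq.out.ne_zero).mp (isUnit_of_mul_isUnit_left h1)

end

/-! Mersenne numbers -/

section
variable {q : ℕ} [hq : Fact q.Prime]

theorem two_pow_full (q : ℕ) : (2 : ZMod (2 ^ q - 1)) ^ q = 1 := by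
  have h1 : (((2 ^ q - 1 : ℕ) : ℕ) : ZMod (2 ^ q - 1)) = 0 := ZMod.natCast_self _
  rw [Nat.cast_sub Nat.one_le_two_pow] at h1
  push_cast at h1
  linear_combination h1

theorem sum_Icc_one (F : ℕ → ℕ) (n : ℕ) :
    ∑ t ∈ Icc 1 n, F t = ∑ i ∈ range n, F (i + 1) := by
  induction n with
  | zero => simp
  | succ n ih => rw [Finset.sum_Icc_succ_top (by omega), ih, Finset.sum_range_succ]

theorem prod_Icc_one {R : Type*} [CommMonoid R] (F : ℕ → R) (n : ℕ) :
    ∏ t ∈ Icc 1 n, F t = ∏ i ∈ range n, F (i + 1) := by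
  induction n with
  | zero => simp
  | succ n ih => rw [Finset.prod_Icc_succ_top (by omega), ih, Finset.prod_range_succ]

/-- the exponent of the Mersenne number `2^k - 1` -/
def ek (q k : ℕ) : ℕ := (((k + 1 : ℕ) : ZMod q)⁻¹).val - 1

theorem ek_zero : ek q 0 = 0 := by
  have := hq.out.one_lt
  have : Fact (1 < q) := ⟨this⟩
  rw [ek, zero_add, Nat.cast_one, inv_one, ZMod.val_one]

/-- the sum of the exponents -/
theorem sum_exponents (h2 : q ≠ 2) : 2 * ∑ k ∈ Icc 1 (q - 2), ek q k = (q - 1) * (q - 2) := by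
  have hq3 := three_le h2
  have h1 : ∑ t : (ZMod q)ˣ, ((t : ZMod q).val - 1) = ∑ s ∈ Icc 1 (q - 1), ek q (s - 1) := by
    rw [sum_units_inv]
    have := sum_units_eq (q := q) (fun s => ek q (s - 1))
    rw [← this]
    refine Finset.sum_congr rfl fun t _ => ?_
    have h1 := val_unit_pos t
    rw [ek, inv_val, Nat.sub_add_cancel h1]
  have h3 : ∑ t : (ZMod q)ˣ, ((t : ZMod q).val - 1) = ∑ s ∈ Icc 1 (q - 1), (s - 1) :=
    sum_units_eq (q := q) (fun s => s - 1)
  rw [h3, sum_Icc_one, sum_Icc_one] at h1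
  simp only [Nat.add_sub_cancel] at h1
  obtain ⟨n, hn⟩ : ∃ n, q - 1 = n + 1 := ⟨q - 2, by omega⟩
  have hn2 : q - 2 = n := by omega
  rw [hn, Finset.sum_range_succ' (fun x => ek q x), ek_zero, add_zero] at h1
  rw [hn2, sum_Icc_one, ← h1, hn, mul_comm, Finset.sum_range_id_mul_two, Nat.add_sub_cancel]

theorem mersenne_prod {R : Type*} [CommRing R] (h2 : q ≠ 2) :
    ∏ t : (ZMod q)ˣ, ((2 : R) - 2 ^ ((t : ZMod q)⁻¹).val) ^ ((t : ZMod q).val - 1) =
      (-2) ^ (∑ k ∈ Icc 1 (q - 2), ek q k) * ∏ k ∈ Icc 1 (q - 2), ((2 : R) ^ k - 1) ^ ek q k := by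
  have hq3 := three_le h2
  have h1 : ∏ t : (ZMod q)ˣ, ((2 : R) - 2 ^ ((t : ZMod q)⁻¹).val) ^ ((t : ZMod q).val - 1) =
      ∏ s ∈ Icc 1 (q - 1), ((2 : R) - 2 ^ s) ^ ek q (s - 1) := by
    rw [prod_units_inv]
    have := prod_units_eq (q := q) (fun s => ((2 : R) - 2 ^ s) ^ ek q (s - 1))
    rw [← this]
    refine Finset.prod_congr rfl fun t _ => ?_
    have h1 := val_unit_pos t
    rw [ek, inv_val, Nat.sub_add_cancel h1, inv_inv, ZMod.natCast_zmod_val]
  rw [h1, prod_Icc_one, ← Finset.prod_pow_eq_pow_sum, ← Finset.prod_mul_distrib]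
  simp only [Nat.add_sub_cancel]
  obtain ⟨n, hn⟩ : ∃ n, q - 1 = n + 1 := ⟨q - 2, by omega⟩
  have hn2 : q - 2 = n := by omega
  rw [hn, Finset.prod_range_succ' (fun x => ((2 : R) - 2 ^ (x + 1)) ^ ek q x), ek_zero, pow_zero,
    mul_one, hn2, prod_Icc_one]
  refine Finset.prod_congr rfl fun k _ => ?_
  rw [← mul_pow]
  congr 1
  ring

/-- **Mersenne primes and factorials** -/
theorem mersenne_criterion (h2 : q ≠ 2) :
    (2 ^ q - 1).Prime ↔ (((((2 ^ q - 1) - 1) / q).factorial : ℕ) : ZMod (2 ^ q - 1)) ^ q *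
      ∏ k ∈ Icc 1 (q - 2), ((2 : ZMod (2 ^ q - 1)) ^ k - 1) ^ ek q k = (-1) ^ ((q + 1) / 2) := by
  have hq3 := three_le h2
  have hc : IsCoprime (2 : ℤ) 1 := isCoprime_one_right
  have hn : ¬ (q : ℤ) ∣ 2 - 1 := by
    intro h
    have h3 : q ∣ 1 := by
      have : (q : ℤ) ∣ (1 : ℕ) := by norm_num at h ⊢; exact h
      exact_mod_cast this
    have := Nat.le_of_dvd (by norm_num) h3
    omega
  have hN : ((2 : ℤ) - 1) * ((2 ^ q - 1 : ℕ) : ℤ) = 2 ^ q - 1 ^ q := by
    rw [Nat.cast_sub Nat.one_le_two_pow]; push_cast; ring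
  have hN1 : 1 < 2 ^ q - 1 := by
    have : 2 ^ 3 ≤ 2 ^ q := Nat.pow_le_pow_right (by norm_num) hq3
    omega
  rw [criterion_general (g := (2 : ZMod (2 ^ q - 1))) h2 hc hn hN hN1 (by push_cast; ring)]
  set N := 2 ^ q - 1 with hNdef
  have hfull : (2 : ZMod N) ^ q = 1 := two_pow_full q
  have hl : legendreSym q ((2 : ℤ) - 1) = 1 := by
    rw [show (2 : ℤ) - 1 = 1 by norm_num]; exact legendreSym.at_one q
  have hv : (-(((1 : ℤ) : ZMod q) / (((2 : ℤ) : ZMod q) - ((1 : ℤ) : ZMod q)))).val = q - 1 := by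
    have e : ((1 : ℤ) : ZMod q) / (((2 : ℤ) : ZMod q) - ((1 : ℤ) : ZMod q)) = 1 := by
      push_cast
      rw [show (2 : ZMod q) - 1 = 1 by norm_num, div_one]
    rw [e]
    have := val_neg_addq (q := q) (y := (1 : ZMod q)) one_ne_zero
    have h1 : Fact (1 < q) := ⟨by omega⟩
    rw [ZMod.val_one] at this
    omega
  rw [hl, hv]
  have e1 : ∏ t : (ZMod q)ˣ, (((2 : ℤ) : ZMod N) - ((1 : ℤ) : ZMod N) *
      (2 : ZMod N) ^ ((t : ZMod q)⁻¹).val) ^ ((t : ZMod q).val - 1) =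
      ∏ t : (ZMod q)ˣ, ((2 : ZMod N) - 2 ^ ((t : ZMod q)⁻¹).val) ^ ((t : ZMod q).val - 1) := by
    push_cast
    simp only [one_mul]
  rw [e1, mersenne_prod h2]
  obtain ⟨m, hm⟩ := q_odd h2
  set S := ∑ k ∈ Icc 1 (q - 2), ek q k with hS
  have hSv : 2 * S = (q - 1) * (q - 2) := sum_exponents h2
  have hSm : S = m * (2 * m - 1) := by
    have h3 : q - 1 = 2 * m := by omega
    have h4 : q - 2 = 2 * m - 1 := by omega
    rw [h3, h4] at hSv
    apply Nat.eq_of_mul_eq_mul_left (show 0 < 2 by norm_num)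
    rw [hSv]; ring
  have hodd : Odd (2 * m - 1) := ⟨m - 1, by omega⟩
  have hpow : (2 : ZMod N) ^ (q - 1) * (-2) ^ S = (-1) ^ m := by
    rw [neg_pow (2 : ZMod N) S]
    have h5 : (-1 : ZMod N) ^ S = (-1) ^ m := by
      rw [hSm, mul_comm, pow_mul, hodd.neg_one_pow]
    rw [h5]
    have h6 : q - 1 + S = q * m := by
      have h7 : q - 1 = 2 * m := by omega
      rw [h7, hSm]
      obtain ⟨m', hm'⟩ : ∃ m', m = m' + 1 := ⟨m - 1, by omega⟩
      rw [hm]
      subst hm'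
      rw [show 2 * (m' + 1) - 1 = 2 * m' + 1 by omega]
      ring
    calc (2 : ZMod N) ^ (q - 1) * ((-1) ^ m * 2 ^ S) = (-1) ^ m * 2 ^ (q - 1 + S) := by
          rw [pow_add]; ring
      _ = (-1) ^ m := by rw [h6, pow_mul, hfull, one_pow, mul_one]
  have hhalf : (q + 1) / 2 = m + 1 := by omega
  rw [hhalf, pow_succ]
  set X := ((((N - 1) / q).factorial : ℕ) : ZMod N) ^ q with hX
  set Y := ∏ k ∈ Icc 1 (q - 2), ((2 : ZMod N) ^ k - 1) ^ ek q k with hY
  have hsq : ((-1 : ZMod N) ^ m) * (-1) ^ m = 1 := by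
    rw [← mul_pow]; norm_num
  have e2 : X * 2 ^ (q - 1) * ((-2) ^ S * Y) = (-1) ^ m * (X * Y) := by
    rw [← hpow]; ring
  rw [e2, Int.cast_one]
  constructor
  · intro h
    linear_combination ((-1 : ZMod N) ^ m) * h - X * Y * hsq
  · intro h
    rw [h]
    linear_combination - hsq

/-- the binomial coefficients modulo a Mersenne prime -/
theorem mersenne_binom (h2 : q ≠ 2) (hp : (2 ^ q - 1).Prime) {a b : ℕ} (ha : 1 ≤ a) (hb : 1 ≤ b)
    (hab : a + b < q) :
    ((((a + b) * (((2 ^ q - 1) - 1) / q)).choose (a * (((2 ^ q - 1) - 1) / q)) : ℕ) :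
      ZMod (2 ^ q - 1)) = ∏ s ∈ (Icc 1 (q - 1)).filter (fun s : ℕ =>
        q < (((s : ZMod q)⁻¹) * (a : ZMod q)).val + (((s : ZMod q)⁻¹) * (b : ZMod q)).val),
        (2 ^ s * (2 - 2 ^ s)) := by
  have hq3 := three_le h2
  have hc : IsCoprime (2 : ℤ) 1 := isCoprime_one_right
  have hn : ¬ (q : ℤ) ∣ 2 - 1 := by
    intro h
    have h3 : q ∣ 1 := by
      have : (q : ℤ) ∣ (1 : ℕ) := by norm_num at h ⊢; exact h
      exact_mod_cast this
    have := Nat.le_of_dvd (by norm_num) h3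
    omega
  have hN : ((2 : ℤ) - 1) * ((2 ^ q - 1 : ℕ) : ℤ) = 2 ^ q - 1 ^ q := by
    rw [Nat.cast_sub Nat.one_le_two_pow]; push_cast; ring
  rw [binom_general (g := (2 : ZMod (2 ^ q - 1))) h2 hc hn hN (by push_cast; ring) hp ha hb hab]
  have hl : legendreSym q ((2 : ℤ) - 1) = 1 := by
    rw [show (2 : ℤ) - 1 = 1 by norm_num]; exact legendreSym.at_one q
  rw [hl, Int.cast_one, one_mul]
  rw [Finset.prod_filter, Finset.prod_filter, prod_units_inv]
  have := prod_units_eq (q := q) (fun s : ℕ => if q < (((s : ZMod q)⁻¹) * (a : ZMod q)).val +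
    (((s : ZMod q)⁻¹) * (b : ZMod q)).val then ((2 : ZMod (2 ^ q - 1)) ^ s * (2 - 2 ^ s)) else 1)
  rw [← this]
  refine Finset.prod_congr rfl fun t _ => ?_
  rw [inv_val, inv_inv, ZMod.natCast_zmod_val]
  have e : ((1 : ℤ) : ZMod q) / (((2 : ℤ) : ZMod q) - ((1 : ℤ) : ZMod q)) = 1 := by
    push_cast
    rw [show (2 : ZMod q) - 1 = 1 by norm_num, div_one]
  rw [e]
  push_cast
  simp only [one_mul]

end

end Pool.Agent.H140.JQ
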