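import Pool.Agent.H140.JQ.Ker

/-! The Jacobi sums of order `q` modulo `p = (A^q - B^q)/(A - B)`, up to a root of unity. -/

namespace Pool.Agent.H140.JQ

open NumberField Finset Polynomial Pool.Agent.H140.FJ

/-- `M = (p-1)/q` -/
def Mq (q p : ℕ) : ℕ := (p - 1) / q

section
variable {q : ℕ} [hq : Fact q.Prime] {p : ℕ} [hpf : Fact p.Prime] {A B : ℤ} (D : Dat q p A B)

/-- the power residue character -/
theorem exists_chiq : ∃ χ : MulChar (ZMod p) (Oq q),
    (∀ t : (ZMod q)ˣ, ∀ x : (ZMod p)ˣ,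
      phiq D t (χ x) = (x : ZMod p) ^ ((t : ZMod q).val * Mq q p)) ∧
    (∀ x : (ZMod p)ˣ, ∃ c, χ x = zq q ^ c) := by
  obtain ⟨γ, hγ⟩ := IsCyclic.exists_generator (α := (ZMod p)ˣ)
  have h1 : ((γ : ZMod p) ^ Mq q p) ^ q = 1 := by
    rw [← pow_mul, mul_comm, Mq, qM D]
    exact ZMod.pow_card_sub_one_eq_one γ.ne_zero
  obtain ⟨i, -, hi⟩ := (gg_prim D).eq_pow_of_pow_eq_one h1
  have hzu : IsUnit (zq q) := (zq_prim q).isUnit hq.out.pos.ne'
  let μ : (Oq q)ˣ := hzu.unit ^ i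
  have hcard : Fintype.card (ZMod p)ˣ = p - 1 := ZMod.card_units p
  have hμ : μ ∈ rootsOfUnity (Fintype.card (ZMod p)ˣ) (Oq q) := by
    rw [mem_rootsOfUnity, hcard]
    apply Units.ext
    simp only [μ, Units.val_pow_eq_pow_val, IsUnit.unit_spec, Units.val_one]
    rw [← pow_mul, mul_comm, ← qM D, pow_mul, pow_mul, zq_full, one_pow, one_pow]
  have hval : MulChar.ofRootOfUnity hμ hγ (γ : ZMod p) = zq q ^ i := by
    rw [MulChar.ofRootOfUnity_spec]
    simp [μ]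
  have hpow : ∀ x : (ZMod p)ˣ, ∃ l : ℕ, x = γ ^ l := by
    intro x
    have := (isOfFinOrder_of_finite γ).mem_powers_iff_mem_zpowers.mpr (hγ x)
    obtain ⟨l, hl⟩ := this
    exact ⟨l, hl.symm⟩
  refine ⟨MulChar.ofRootOfUnity hμ hγ, ?_, ?_⟩
  · intro t x
    obtain ⟨l, hl⟩ := hpow x
    rw [hl, Units.val_pow_eq_pow_val, map_pow, hval, map_pow, map_pow, phiq_z, E]
    calc ((gg p A B ^ (t : ZMod q).val) ^ i) ^ l
        = ((gg p A B ^ i) ^ (t : ZMod q).val) ^ l := by ring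
      _ = _ := by rw [hi]; ring
  · intro x
    obtain ⟨l, hl⟩ := hpow x
    exact ⟨i * l, by rw [hl, Units.val_pow_eq_pow_val, map_pow, hval, ← pow_mul]⟩

end

/-- the power residue character -/
noncomputable def chiq {q : ℕ} [hq : Fact q.Prime] {p : ℕ} [hpf : Fact p.Prime] {A B : ℤ}
    (D : Dat q p A B) : MulChar (ZMod p) (Oq q) := (exists_chiq D).choose

section
variable {q : ℕ} [hq : Fact q.Prime] {p : ℕ} [hpf : Fact p.Prime] {A B : ℤ} (D : Dat q p A B)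

theorem phi_chiq (t : (ZMod q)ˣ) (x : (ZMod p)ˣ) :
    phiq D t (chiq D x) = (x : ZMod p) ^ ((t : ZMod q).val * Mq q p) :=
  (exists_chiq D).choose_spec.1 t x

theorem chiq_val (x : (ZMod p)ˣ) : ∃ c, chiq D x = zq q ^ c := (exists_chiq D).choose_spec.2 x

/-- the exponent attached to `t a` -/
def exq (p : ℕ) {q : ℕ} (y : ZMod q) : ℕ := y.val * Mq q p

include D in
theorem exq_congr (t : ZMod q) (a : ℕ) :
    exq p (t * (a : ZMod q)) ≡ t.val * Mq q p * a [MOD p - 1] := by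
  rw [exq, ← qM D]
  have h : (t * (a : ZMod q)).val ≡ t.val * a [MOD q] := by
    rw [ZMod.val_mul, ZMod.val_natCast]
    unfold Nat.ModEq
    rw [Nat.mod_mod, Nat.mul_mod_mod]
  have := Nat.ModEq.mul_right' (Mq q p) h
  rw [show t.val * Mq q p * a = t.val * a * Mq q p by ring]
  exact this

include D in
theorem exq_pos {y : ZMod q} (hy : y ≠ 0) : 0 < exq p y := by
  apply Nat.mul_pos _ (M_posq D)
  rw [Nat.pos_iff_ne_zero, Ne, ZMod.val_eq_zero]
  exact hy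

theorem unit_mul_ne (t : (ZMod q)ˣ) {a : ZMod q} (ha : a ≠ 0) : (t : ZMod q) * a ≠ 0 :=
  mul_ne_zero (unit_ne t) ha

theorem phi_chiq_pow (t : (ZMod q)ˣ) {a : ℕ} (ha : (a : ZMod q) ≠ 0) (x : ZMod p) :
    phiq D t (((chiq D) ^ a) x) = x ^ exq p ((t : ZMod q) * (a : ZMod q)) := by
  have ha0 : a ≠ 0 := by rintro rfl; simp at ha
  have hta := unit_mul_ne t ha
  rw [MulChar.pow_apply' _ ha0]
  by_cases hx : x = 0
  · rw [hx, MulChar.map_zero, zero_pow ha0, map_zero, zero_pow (exq_pos D hta).ne']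
  · have hu : ((Units.mk0 x hx : (ZMod p)ˣ) : ZMod p) = x := rfl
    rw [map_pow, ← hu, phi_chiq, ← pow_mul, hu]
    exact (pow_congr hx (exq_congr D _ a)).symm

theorem phi_jacq (t : (ZMod q)ˣ) {a b : ℕ} (ha : (a : ZMod q) ≠ 0) (hb : (b : ZMod q) ≠ 0) :
    phiq D t (jacobiSum (chiq D ^ a) (chiq D ^ b)) =
      ∑ x : ZMod p, x ^ exq p ((t : ZMod q) * (a : ZMod q)) *
        (1 - x) ^ exq p ((t : ZMod q) * (b : ZMod q)) := by
  rw [jacobiSum, map_sum]
  apply Finset.sum_congr rfl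
  intro x _
  rw [map_mul, phi_chiq_pow D t ha, phi_chiq_pow D t hb]

/-- the set of `t` with `⟨ta⟩ + ⟨tb⟩ < q` -/
def TQ (q : ℕ) [hq : Fact q.Prime] (a b : ZMod q) : Finset (ZMod q)ˣ :=
  univ.filter fun t => ((t : ZMod q) * a).val + ((t : ZMod q) * b).val < q

theorem mem_TQ {a b : ZMod q} {t : (ZMod q)ˣ} :
    t ∈ TQ q a b ↔ ((t : ZMod q) * a).val + ((t : ZMod q) * b).val < q := by
  simp [TQ]

theorem val_neg_addq {y : ZMod q} (hy : y ≠ 0) : (-y).val + y.val = q := by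
  have : NeZero y := ⟨hy⟩
  have h := ZMod.val_neg_of_ne_zero y
  have h2 := ZMod.val_lt y
  omega

theorem neg_mem_TQ {a b : ZMod q} (ha : a ≠ 0) (hb : b ≠ 0) (hab : a + b ≠ 0) (t : (ZMod q)ˣ) :
    -t ∈ TQ q a b ↔ t ∉ TQ q a b := by
  rw [mem_TQ, mem_TQ]
  have e1 := val_neg_addq (unit_mul_ne t ha)
  have e2 := val_neg_addq (unit_mul_ne t hb)
  have e3 : ((t : ZMod q) * a).val + ((t : ZMod q) * b).val ≠ q := by
    intro h
    apply unit_mul_ne t hab
    have : ((((t : ZMod q) * a).val + ((t : ZMod q) * b).val : ℕ) : ZMod q) = ((q : ℕ) : ZMod q) := by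
      rw [h]
    rw [Nat.cast_add, ZMod.natCast_zmod_val, ZMod.natCast_zmod_val, ZMod.natCast_self] at this
    rw [mul_add]
    exact this
  rw [Units.val_neg, neg_mul, neg_mul]
  omega

theorem conj_Eq (σ : Oq q →+* ℂ) (y : ZMod q) :
    (starRingEnd ℂ) (σ (E (zq q) y)) = σ (E (zq q) (-y)) := by
  have h1 : E (zq q) y ^ q = 1 := E_pow_q (zq_full q) y
  have h2 : ‖σ (E (zq q) y)‖ = 1 := Complex.norm_eq_one_of_pow_eq_one
    (by rw [← map_pow, h1, map_one]) hq.out.ne_zero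
  have h3 : (starRingEnd ℂ) (σ (E (zq q) y)) * σ (E (zq q) y) = 1 := by
    rw [Complex.conj_mul', h2]; norm_num
  have h4 : σ (E (zq q) (-y)) * σ (E (zq q) y) = 1 := by
    rw [← map_mul, E_neg (zq_full q), map_one]
  have h5 : σ (E (zq q) y) ≠ 0 := by
    intro h
    rw [h, norm_zero] at h2
    norm_num at h2
  exact mul_right_cancel₀ h5 (h3.trans h4.symm)

theorem conj_prq (σ : Oq q →+* ℂ) (t : (ZMod q)ˣ) :
    (starRingEnd ℂ) (σ (prq q A B t)) = σ (prq q A B (-t)) := by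
  have e : (((-t)⁻¹ : (ZMod q)ˣ) : ZMod q) = -((t⁻¹ : (ZMod q)ˣ) : ZMod q) := by
    rw [inv_neg, Units.val_neg]
  rw [prq, prq, e, map_sub, map_mul, map_sub, map_mul, conj_Eq, map_sub, map_mul]
  simp only [map_intCast]

include D in
theorem norm_prq (σ : Oq q →+* ℂ) {a b : ZMod q} (ha : a ≠ 0)
    (hb : b ≠ 0) (hab : a + b ≠ 0) :
    (starRingEnd ℂ) (σ (∏ t ∈ TQ q a b, prq q A B t)) * σ (∏ t ∈ TQ q a b, prq q A B t) = p := by
  have h1 : (starRingEnd ℂ) (σ (∏ t ∈ TQ q a b, prq q A B t))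
      = σ (∏ t ∈ (TQ q a b)ᶜ, prq q A B t) := by
    rw [map_prod, map_prod, map_prod]
    refine Finset.prod_bij' (fun t _ => -t) (fun t _ => -t) ?_ ?_ ?_ ?_ ?_
    · intro t ht
      rw [Finset.mem_compl, neg_mem_TQ ha hb hab]
      exact not_not.mpr ht
    · intro t ht
      rw [neg_mem_TQ ha hb hab]
      exact Finset.mem_compl.mp ht
    · intro t _; exact neg_neg t
    · intro t _; exact neg_neg t
    · intro t _; exact conj_prq σ t
  rw [h1, ← map_mul, mul_comm, Finset.prod_mul_prod_compl, prod_prq D, map_natCast]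

theorem chiq_pow_ne (a : ℕ) (ha : (a : ZMod q) ≠ 0) : chiq D ^ a ≠ 1 := by
  intro h
  obtain ⟨γ, hγ⟩ := IsCyclic.exists_generator (α := (ZMod p)ˣ)
  have h1 := phi_chiq_pow D 1 ha (γ : ZMod p)
  rw [h, MulChar.one_apply_coe, map_one, Units.val_one, one_mul] at h1
  have h2 : γ ^ exq p (a : ZMod q) = 1 := Units.ext (by
    rw [Units.val_pow_eq_pow_val, Units.val_one]; exact h1.symm)
  have h3 : orderOf γ = p - 1 := by
    rw [orderOf_eq_card_of_forall_mem_zpowers hγ, Nat.card_eq_fintype_card, ZMod.card_units]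
  have h4 := orderOf_dvd_of_pow_eq_one h2
  rw [h3] at h4
  have h5 := Nat.le_of_dvd (exq_pos D ha) h4
  rw [← qM D, exq] at h5
  have h6 := Nat.le_of_mul_le_mul_right h5 (M_posq D)
  have h7 := ZMod.val_lt (a : ZMod q)
  omega

theorem norm_jacq (σ : Oq q →+* ℂ) (hσ : Function.Injective σ) {a b : ℕ}
    (ha : (a : ZMod q) ≠ 0) (hb : (b : ZMod q) ≠ 0) (hab : (a : ZMod q) + b ≠ 0) :
    (starRingEnd ℂ) (σ (jacobiSum (chiq D ^ a) (chiq D ^ b))) *
      σ (jacobiSum (chiq D ^ a) (chiq D ^ b)) = p := by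
  set χ' := (chiq D ^ a).ringHomComp σ with hχ'
  set φ' := (chiq D ^ b).ringHomComp σ with hφ'
  have h0 : σ (jacobiSum (chiq D ^ a) (chiq D ^ b)) = jacobiSum χ' φ' := by
    rw [hχ', hφ', jacobiSum_ringHomComp]
  have h1 : χ' ≠ 1 := (MulChar.ringHomComp_ne_one_iff hσ).mpr (chiq_pow_ne D a ha)
  have h2 : φ' ≠ 1 := (MulChar.ringHomComp_ne_one_iff hσ).mpr (chiq_pow_ne D b hb)
  have h3 : χ' * φ' ≠ 1 := by
    rw [hχ', hφ', ← MulChar.ringHomComp_mul, ← pow_add]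
    exact (MulChar.ringHomComp_ne_one_iff hσ).mpr (chiq_pow_ne D (a + b) (by push_cast; exact hab))
  have h4 : ringChar ℂ ≠ ringChar (ZMod p) := by
    rw [ZMod.ringChar_zmod_n, ringChar.eq_zero]
    exact (Fact.out : p.Prime).ne_zero.symm
  have h5 := jacobiSum_mul_jacobiSum_inv h4 h1 h2 h3
  have h6 : (starRingEnd ℂ) (jacobiSum χ' φ') = jacobiSum χ'⁻¹ φ'⁻¹ := by
    rw [jacobiSum, jacobiSum, map_sum]
    apply Finset.sum_congr rfl
    intro x _
    rw [map_mul]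
    congr 1
    · exact MulChar.star_apply' χ' x
    · exact MulChar.star_apply' φ' (1 - x)
  rw [h0, h6, mul_comm, h5, ZMod.card]

end

section
variable {q : ℕ} [hq : Fact q.Prime]

theorem unit_of_normq (h2 : q ≠ 2) {u : Oq q}
    (h : ∀ σ : Oq q →+* ℂ, Function.Injective σ → ‖σ u‖ = 1) :
    ∃ c, u = zq q ^ c ∨ u = - zq q ^ c := by
  have h1 : ∀ φ : Kq q →+* ℂ, ‖φ (u : Kq q)‖ = 1 := by
    intro φ
    exact h (φ.comp (algebraMap (Oq q) (Kq q))) (φ.injective.comp RingOfIntegers.coe_injective)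
  obtain ⟨N, hN, hu⟩ := Embeddings.pow_eq_one_of_norm_eq_one (Kq q) ℂ u.isIntegral_coe h1
  have hu' : u ^ N = 1 := by
    apply RingOfIntegers.coe_injective
    rw [map_pow, map_one]
    exact hu
  have hunit : IsUnit u := IsUnit.of_pow_eq_one hu' hN.ne'
  have hmem : hunit.unit ∈ Units.torsion (Kq q) := by
    rw [Units.torsion, CommGroup.mem_torsion]
    exact isOfFinOrder_iff_pow_eq_one.mpr ⟨N, hN, Units.ext (by
      rw [Units.val_pow_eq_pow_val, Units.val_one, IsUnit.unit_spec]; exact hu')⟩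
  have hord : Units.torsionOrder (Kq q) = 2 * q := by
    have h := IsCyclotomicExtension.Rat.torsionOrder_eq (n := q) (K := Kq q)
    rw [h, if_neg]
    exact Nat.not_even_iff_odd.mpr (q_odd h2)
  have hpow : hunit.unit ^ (2 * q) = 1 := by
    rw [← Units.rootsOfUnity_eq_torsion, hord, mem_rootsOfUnity] at hmem
    exact hmem
  have hpow' : u ^ (2 * q) = 1 := by
    have := congrArg Units.val hpow
    rwa [Units.val_pow_eq_pow_val, Units.val_one, IsUnit.unit_spec] at this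
  have h3 : (u ^ q) * (u ^ q) = 1 := by rw [← pow_two, ← pow_mul, mul_comm, hpow']
  rcases mul_self_eq_one_iff.mp h3 with h4 | h4
  · obtain ⟨i, -, hi⟩ := (zq_prim q).eq_pow_of_pow_eq_one h4
    exact ⟨i, Or.inl hi.symm⟩
  · have h5 : (-u) ^ q = 1 := by rw [(q_odd h2).neg_pow, h4, neg_neg]
    obtain ⟨i, -, hi⟩ := (zq_prim q).eq_pow_of_pow_eq_one h5
    exact ⟨i, Or.inr (by rw [hi, neg_neg])⟩

variable {p : ℕ} [hpf : Fact p.Prime] {A B : ℤ} (D : Dat q p A B)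

/-- **the Jacobi sums up to a root of unity** -/
theorem jac_evalq {a b : ℕ} (ha : (a : ZMod q) ≠ 0) (hb : (b : ZMod q) ≠ 0)
    (hab : (a : ZMod q) + b ≠ 0) :
    ∃ (c : ℕ) (s : Oq q), (s = 1 ∨ s = -1) ∧
      jacobiSum (chiq D ^ a) (chiq D ^ b) =
        s * zq q ^ c * ∏ t ∈ TQ q (a : ZMod q) (b : ZMod q), prq q A B t := by
  have hdvd : ∏ t ∈ TQ q (a : ZMod q) (b : ZMod q), prq q A B t ∣ jacobiSum (chiq D ^ a) (chiq D ^ b) := by
    apply prod_dvd_of_phiq D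
    intro t ht
    rw [mem_TQ] at ht
    rw [phi_jacq D t ha hb]
    apply sum_small (exq_pos D (unit_mul_ne t ha))
    rw [exq, exq, ← add_mul, ← qM D]
    exact Nat.mul_lt_mul_of_pos_right ht (M_posq D)
  obtain ⟨u, hu⟩ := hdvd
  have hp0 : (p : ℂ) ≠ 0 := by exact_mod_cast D.hp.ne_zero
  have hu1 : ∀ σ : Oq q →+* ℂ, Function.Injective σ → ‖σ u‖ = 1 := by
    intro σ hσ
    have h1 := norm_jacq D σ hσ ha hb hab
    have h2 := norm_prq D σ ha hb hab
    rw [hu, map_mul, map_mul] at h1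
    have h3 : (starRingEnd ℂ) (σ u) * σ u = 1 := by
      apply mul_left_cancel₀ hp0
      rw [mul_one]
      nth_rewrite 1 [← h2]
      rw [← h1]
      ring
    rw [Complex.conj_mul'] at h3
    have h4 : ‖σ u‖ ^ 2 = 1 := by exact_mod_cast h3
    nlinarith [norm_nonneg (σ u)]
  obtain ⟨c, hc | hc⟩ := unit_of_normq D.h2 hu1
  · exact ⟨c, 1, Or.inl rfl, by rw [hu, hc]; ring⟩
  · exact ⟨c, -1, Or.inr rfl, by rw [hu, hc]; ring⟩

end

end Pool.Agent.H140.JQ
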