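import Pool.Agent.H140.JQ.Ring

/-! Kernels of the reductions of `ℤ[ζ]` at a prime `p = (A^q - B^q)/(A - B)`. -/

namespace Pool.Agent.H140.JQ

open NumberField Finset Polynomial Pool.Agent.H140.FJ

/-- the standing assumptions -/
structure Dat (q p : ℕ) (A B : ℤ) : Prop where
  h2 : q ≠ 2
  hp : p.Prime
  hc : IsCoprime A B
  hn : ¬ (q : ℤ) ∣ A - B
  hN : (A - B) * p = A ^ q - B ^ q

section
variable {q : ℕ} [hq : Fact q.Prime]

theorem three_le {q : ℕ} [hq : Fact q.Prime] (h2 : q ≠ 2) : 3 ≤ q := by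
  have := hq.out.two_le
  omega

theorem q_odd {q : ℕ} [hq : Fact q.Prime] (h2 : q ≠ 2) : Odd q := hq.out.odd_of_ne_two h2

/-- a divisor condition modulo `q` -/
theorem q_dvd_sub_one {N : ℤ} {A B : ℤ} (hn : ¬ (q : ℤ) ∣ A - B)
    (hN : (A - B) * N = A ^ q - B ^ q) : (q : ℤ) ∣ N - 1 := by
  have h1 : ((A : ℤ) : ZMod q) ^ q = A := ZMod.pow_card _
  have h2 : ((B : ℤ) : ZMod q) ^ q = B := ZMod.pow_card _
  have h3 := congrArg (Int.cast (R := ZMod q)) hN
  push_cast at h3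
  rw [h1, h2] at h3
  have h4 : (((A - B) * (N - 1) : ℤ) : ZMod q) = 0 := by
    push_cast
    linear_combination h3
  rw [ZMod.intCast_zmod_eq_zero_iff_dvd] at h4
  rcases (Nat.prime_iff_prime_int.mp hq.out).dvd_or_dvd h4 with h | h
  · exact absurd h hn
  · exact h

theorem sub_ne {q : ℕ} {A B : ℤ} (hn : ¬ (q : ℤ) ∣ A - B) : A - B ≠ 0 := by
  intro h
  rw [h] at hn
  exact hn (dvd_zero _)

variable {p : ℕ} {A B : ℤ} (D : Dat q p A B)

include D

theorem q_dvd : q ∣ p - 1 := by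
  have h := q_dvd_sub_one D.hn D.hN
  have h1 : ((p - 1 : ℕ) : ℤ) = (p : ℤ) - 1 := by
    rw [Nat.cast_sub D.hp.one_lt.le]; rfl
  rw [← h1] at h
  exact_mod_cast h

theorem p_gt : q < p := by
  have h1 := Nat.le_of_dvd (by have := D.hp.one_lt; omega) (q_dvd D)
  have := D.hp.one_lt
  omega

theorem p_ne_two : p ≠ 2 := by
  have h1 := p_gt D
  have h2 := three_le D.h2
  omega

/-- `M = (p-1)/q` -/
theorem qM : q * ((p - 1) / q) = p - 1 := Nat.mul_div_cancel' (q_dvd D)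

theorem M_posq : 0 < (p - 1) / q := by
  rcases Nat.eq_zero_or_pos ((p - 1) / q) with h | h
  · exfalso
    have h1 := qM D
    rw [h, mul_zero] at h1
    have := D.hp.one_lt
    omega
  · exact h

theorem M_evenq : Even ((p - 1) / q) := by
  have h1 := qM D
  have h2 : Even (p - 1) := by
    have := D.hp.eq_two_or_odd.resolve_left (p_ne_two D)
    rw [Nat.even_iff]
    omega
  rw [← h1] at h2
  rcases Nat.even_mul.mp h2 with h | h
  · exact absurd h (Nat.not_even_iff_odd.mpr (q_odd D.h2))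
  · exact h

theorem p_not_dvd_B : ¬ (p : ℤ) ∣ B := by
  intro h
  have hp' := Nat.prime_iff_prime_int.mp D.hp
  have h1 : (p : ℤ) ∣ A ^ q := by
    have h2 : (p : ℤ) ∣ B ^ q := dvd_pow h hq.out.ne_zero
    have h3 : (p : ℤ) ∣ A ^ q - B ^ q := D.hN ▸ dvd_mul_left _ _
    have := dvd_add h3 h2
    rwa [sub_add_cancel] at this
  have h4 := hp'.dvd_of_dvd_pow h1
  have := D.hc.isUnit_of_dvd' h4 h
  exact hp'.not_isUnit this

theorem p_not_dvd_sub : ¬ (p : ℤ) ∣ A - B := by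
  intro h
  have hp' := Nat.prime_iff_prime_int.mp D.hp
  have hne := sub_ne D.hn
  have h1 := (Commute.all A B).geom_sum₂_mul q
  have h2 : (p : ℤ) = ∑ i ∈ range q, A ^ i * B ^ (q - 1 - i) := by
    apply mul_left_cancel₀ hne
    rw [D.hN, ← h1, mul_comm]
  have h3 : (p : ℤ) ∣ ∑ i ∈ range q, (A ^ i * B ^ (q - 1 - i) - B ^ (q - 1)) := by
    apply Finset.dvd_sum
    intro i hi
    rw [mem_range] at hi
    have e : A ^ i * B ^ (q - 1 - i) - B ^ (q - 1) = (A ^ i - B ^ i) * B ^ (q - 1 - i) := by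
      rw [sub_mul, ← pow_add, show i + (q - 1 - i) = q - 1 by omega]
    rw [e]
    exact Dvd.dvd.mul_right (dvd_trans h (sub_dvd_pow_sub_pow A B i)) _
  rw [Finset.sum_sub_distrib, ← h2, Finset.sum_const, card_range, nsmul_eq_mul] at h3
  have h4 : (p : ℤ) ∣ (q : ℤ) * B ^ (q - 1) := by
    have := dvd_sub (dvd_refl (p : ℤ)) h3
    rwa [sub_sub_cancel] at this
  rcases hp'.dvd_or_dvd h4 with h5 | h5
  · have h6 : p ∣ q := by exact_mod_cast h5
    have := Nat.le_of_dvd hq.out.pos h6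
    have := p_gt D
    omega
  · exact p_not_dvd_B D (hp'.dvd_of_dvd_pow h5)

end

/-- the root of unity `A / B` modulo `p` -/
noncomputable def gg (p : ℕ) (A B : ℤ) [Fact p.Prime] : ZMod p := (A : ZMod p) * (B : ZMod p)⁻¹

section
variable {q : ℕ} [hq : Fact q.Prime] {p : ℕ} [hpf : Fact p.Prime] {A B : ℤ} (D : Dat q p A B)

include D

theorem B_ne : (B : ZMod p) ≠ 0 := by
  rw [Ne, ZMod.intCast_zmod_eq_zero_iff_dvd]
  exact p_not_dvd_B D

theorem gg_mul : gg p A B * (B : ZMod p) = A := by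
  rw [gg, mul_assoc, inv_mul_cancel₀ (B_ne D), mul_one]

theorem gg_pow : gg p A B ^ q = 1 := by
  have h1 : ((A - B : ℤ) * (p : ℤ) : ℤ) = A ^ q - B ^ q := D.hN
  have h2 := congrArg (Int.cast (R := ZMod p)) h1
  push_cast at h2
  rw [ZMod.natCast_self, mul_zero] at h2
  have h3 : (B : ZMod p) ^ q ≠ 0 := pow_ne_zero _ (B_ne D)
  apply mul_right_cancel₀ h3
  rw [← mul_pow, gg_mul D, one_mul]
  linear_combination -h2

theorem gg_ne : gg p A B ≠ 1 := by
  intro h
  have h1 := gg_mul D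
  rw [h, one_mul] at h1
  apply p_not_dvd_sub D
  rw [← ZMod.intCast_zmod_eq_zero_iff_dvd]
  push_cast
  rw [h1, sub_self]

theorem gg_prim : IsPrimitiveRoot (gg p A B) q :=
  IsPrimitiveRoot.of_map_of_injective (f := MonoidHom.id _) (by
    have h1 : orderOf (gg p A B) = q := orderOf_eq_prime (gg_pow D) (gg_ne D)
    rw [← h1]
    exact IsPrimitiveRoot.orderOf _) (fun _ _ h => h)

theorem exists_phiq (t : (ZMod q)ˣ) :
    ∃ φ : Oq q →+* ZMod p, φ (zq q) = E (gg p A B) (t : ZMod q) :=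
  exists_liftq q _ (geom_E (gg_prim D) (unit_ne t))

end

/-- reduction with `ζ ↦ g^t` -/
noncomputable def phiq {q : ℕ} [hq : Fact q.Prime] {p : ℕ} [hpf : Fact p.Prime] {A B : ℤ}
    (D : Dat q p A B) (t : (ZMod q)ˣ) : Oq q →+* ZMod p :=
  (exists_phiq D t).choose

theorem phiq_z {q : ℕ} [hq : Fact q.Prime] {p : ℕ} [hpf : Fact p.Prime] {A B : ℤ}
    (D : Dat q p A B) (t : (ZMod q)ˣ) :
    phiq D t (zq q) = E (gg p A B) (t : ZMod q) := (exists_phiq D t).choose_spec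

/-- the prime element belonging to `t` -/
noncomputable def prq (q : ℕ) [hq : Fact q.Prime] (A B : ℤ) (t : (ZMod q)ˣ) : Oq q :=
  (A : Oq q) - (B : Oq q) * E (zq q) ((t⁻¹ : (ZMod q)ˣ) : ZMod q)

section
variable {q : ℕ} [hq : Fact q.Prime] {p : ℕ} [hpf : Fact p.Prime] {A B : ℤ} (D : Dat q p A B)

include D

theorem prod_prq : ∏ t : (ZMod q)ˣ, prq q A B t = (p : Oq q) := by
  have h := prod_unitsq (zq_prim q) (A : Oq q) (B : Oq q)
  have e : ∏ t : (ZMod q)ˣ, prq q A B t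
      = ∏ t : (ZMod q)ˣ, ((A : Oq q) - (B : Oq q) * E (zq q) (t : ZMod q)) :=
    Fintype.prod_equiv (Equiv.inv _) _ _ (fun t => rfl)
  have hne : (A : Oq q) - B ≠ 0 := by
    have := sub_ne D.hn
    exact_mod_cast this
  apply mul_left_cancel₀ hne
  rw [e, h]
  have := congrArg (Int.cast (R := Oq q)) D.hN
  push_cast at this
  exact this.symm

theorem prq_dvd_p (t : (ZMod q)ˣ) : prq q A B t ∣ (p : Oq q) := by
  rw [← prod_prq D]
  exact Finset.dvd_prod_of_mem _ (mem_univ t)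

theorem dvd_of_phiq {t : (ZMod q)ˣ} {x : Oq q} (hx : phiq D t x = 0) : prq q A B t ∣ x := by
  set η : Oq q := E (zq q) ((t⁻¹ : (ZMod q)ˣ) : ZMod q) with hη
  set tv := (t : ZMod q).val with htv
  have hz : zq q = η ^ tv := by
    rw [hη, htv, ← E_mul (zq_full q), ← Units.val_mul, inv_mul_cancel, Units.val_one,
      E_one (zq_full q)]
  obtain ⟨B', c, hB'⟩ : ∃ B' c : ℤ, B * B' = 1 + p * c := by
    have hcop : IsCoprime (p : ℤ) B :=
      (Nat.prime_iff_prime_int.mp D.hp).coprime_iff_not_dvd.mpr (p_not_dvd_B D)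
    obtain ⟨u, v, huv⟩ := hcop
    exact ⟨v, -u, by linear_combination huv⟩
  set G : ℤ := A * B' with hG
  have hpr : η - (G : Oq q) = -(B' : Oq q) * prq q A B t - p * (c * η) := by
    have h1 := congrArg (Int.cast (R := Oq q)) hB'
    push_cast at h1
    rw [prq, hG, ← hη]
    push_cast
    linear_combination (-η) * h1
  have hd : prq q A B t ∣ η - (G : Oq q) := by
    rw [hpr]
    exact dvd_sub (Dvd.dvd.mul_left (dvd_refl _) _) (Dvd.dvd.mul_right (prq_dvd_p D t) _)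
  have hGp : ((G : ℤ) : ZMod p) = gg p A B := by
    have h1 := congrArg (Int.cast (R := ZMod p)) hB'
    push_cast at h1
    rw [ZMod.natCast_self, zero_mul, add_zero] at h1
    apply mul_right_cancel₀ (B_ne D)
    rw [gg_mul D, hG]
    push_cast
    linear_combination (A : ZMod p) * h1
  obtain ⟨f, hf⟩ := exists_polyq q x
  have h1 : prq q A B t ∣ x - aeval (((G : ℤ) ^ tv : ℤ) : Oq q) f := by
    rw [hf]
    have h2 : zq q - (((G : ℤ) ^ tv : ℤ) : Oq q) ∣
        aeval (zq q) f - aeval (((G : ℤ) ^ tv : ℤ) : Oq q) f := by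
      rw [aeval_def, aeval_def, eval₂_eq_eval_map, eval₂_eq_eval_map]
      exact sub_dvd_eval_sub _ _ _
    refine dvd_trans (dvd_trans hd ?_) h2
    rw [hz]
    push_cast
    exact sub_dvd_pow_sub_pow _ _ _
  have h3 : aeval (((G : ℤ) ^ tv : ℤ) : Oq q) f = ((f.eval ((G : ℤ) ^ tv) : ℤ) : Oq q) := by
    have := aeval_algebraMap_apply (Oq q) ((G : ℤ) ^ tv) f
    simpa using this
  have h4 : ((f.eval ((G : ℤ) ^ tv) : ℤ) : ZMod p) = 0 := by
    rw [← hx, hf, ← Polynomial.coe_aeval_eq_eval]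
    have e1 : phiq D t (aeval (zq q) f) = aeval (phiq D t (zq q)) f := by
      have := Polynomial.hom_eval₂ f (algebraMap ℤ (Oq q)) (phiq D t) (zq q)
      rw [aeval_def, aeval_def, this]
      congr 1
      exact RingHom.ext_int _ _
    have e2 : phiq D t (zq q) = (((G : ℤ) ^ tv : ℤ) : ZMod p) := by
      rw [phiq_z, E]; push_cast; rw [hGp]
    rw [e1, e2]
    have := aeval_algebraMap_apply (ZMod p) ((G : ℤ) ^ tv) f
    simpa using this.symm
  have h5 : ((p : ℕ) : ℤ) ∣ f.eval ((G : ℤ) ^ tv) := (ZMod.intCast_zmod_eq_zero_iff_dvd _ _).mp h4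
  have h7 : prq q A B t ∣ ((f.eval ((G : ℤ) ^ tv) : ℤ) : Oq q) := by
    obtain ⟨c, hc⟩ := h5
    rw [hc]
    push_cast
    exact Dvd.dvd.mul_right (prq_dvd_p D t) _
  rw [h3] at h1
  have h8 := dvd_add h1 h7
  rwa [sub_add_cancel] at h8

theorem prq_coprime {t t' : (ZMod q)ˣ} (h : t ≠ t') :
    IsCoprime (prq q A B t) (prq q A B t') := by
  have h1 : IsCoprime (p : ℤ) (B * q) := by
    apply IsCoprime.mul_right
    · exact (Nat.prime_iff_prime_int.mp D.hp).coprime_iff_not_dvd.mpr (p_not_dvd_B D)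
    · apply (Nat.prime_iff_prime_int.mp D.hp).coprime_iff_not_dvd.mpr
      intro h5
      have h6 : p ∣ q := by exact_mod_cast h5
      have := Nat.le_of_dvd hq.out.pos h6
      have := p_gt D
      omega
  have h2 : IsCoprime (p : Oq q) ((B : Oq q) * q) := by
    have := h1.map (Int.castRingHom (Oq q))
    simpa using this
  have h3 : IsCoprime (prq q A B t) ((B : Oq q) * q) := h2.of_isCoprime_of_dvd_left (prq_dvd_p D t)
  have hne : ((t⁻¹ : (ZMod q)ˣ) : ZMod q) ≠ ((t'⁻¹ : (ZMod q)ˣ) : ZMod q) := by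
    intro hcon
    exact h (inv_injective (Units.ext hcon))
  have h4 : prq q A B t' - prq q A B t ∣ (B : Oq q) * q := by
    obtain ⟨c, hc⟩ := sub_dvd_q hne
    exact ⟨c, by rw [prq, prq]; linear_combination (B : Oq q) * hc⟩
  obtain ⟨u, v, huv⟩ := h3.of_isCoprime_of_dvd_right h4
  exact ⟨u - v, v, by linear_combination huv⟩

theorem prod_dvd_of_phiq (T : Finset (ZMod q)ˣ) {x : Oq q}
    (h : ∀ t ∈ T, phiq D t x = 0) : ∏ t ∈ T, prq q A B t ∣ x := by
  apply Finset.prod_dvd_of_coprime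
  · intro t _ t' _ htt'
    exact prq_coprime D htt'
  · intro t ht
    exact dvd_of_phiq D (h t ht)

end

end Pool.Agent.H140.JQ
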