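import Pool.Agent.H140.JQ.Exact

/-! Reduction modulo `p`: binomial coefficients and factorials. -/

namespace Pool.Agent.H140.JQ

open NumberField Finset Polynomial Pool.Agent.H140.FJ

/-- the factor belonging to the class `t`; `g` plays the role of `A / B` -/
noncomputable def fac {R : Type*} [CommRing R] (q : ℕ) [hq : Fact q.Prime] (A B : ℤ) (g : R)
    (t : (ZMod q)ˣ) : R :=
  E g (bet q A B * ((t⁻¹ : (ZMod q)ˣ) : ZMod q)) *
    ((A : R) - (B : R) * E g ((t⁻¹ : (ZMod q)ˣ) : ZMod q))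

section
variable {q : ℕ} [hq : Fact q.Prime] {p : ℕ} [hpf : Fact p.Prime] {A B : ℤ} (D : Dat q p A B)

theorem phiq_E_neg (y : ZMod q) : phiq D (-1) (E (zq q) y) = E (gg p A B) (-y) := by
  rw [map_E, phiq_z, Units.val_neg, Units.val_one, E, ← E_mul (gg_pow D), neg_one_mul]

theorem phiq_rho (t : (ZMod q)ˣ) : phiq D (-1) (rho q A B t) = fac q A B (gg p A B) (-t) := by
  have e : (((-t)⁻¹ : (ZMod q)ˣ) : ZMod q) = -((t⁻¹ : (ZMod q)ˣ) : ZMod q) := by
    rw [inv_neg, Units.val_neg]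
  rw [rho, prq, fac, e, map_mul, map_sub, map_mul, map_intCast, map_intCast, phiq_E_neg,
    phiq_E_neg, mul_neg]

theorem natCast_neq {a : ℕ} (h1 : 1 ≤ a) (h2 : a < q) : (a : ZMod q) ≠ 0 := by
  rw [Ne, ZMod.natCast_eq_zero_iff]
  intro h
  have := Nat.le_of_dvd (by omega) h
  omega

theorem exq_neg {a : ℕ} (h1 : 1 ≤ a) (h2 : a < q) :
    exq p (((-1 : (ZMod q)ˣ) : ZMod q) * (a : ZMod q)) = (q - a) * Mq q p := by
  rw [exq, Units.val_neg, Units.val_one, neg_one_mul]
  have h3 := val_neg_addq (natCast_neq h1 h2)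
  rw [ZMod.val_natCast_of_lt h2] at h3
  congr 1
  omega

theorem phi_jac_negq {a b : ℕ} (ha : 1 ≤ a) (hb : 1 ≤ b) (hab : a + b ≤ q) :
    phiq D (-1) (jacobiSum (chiq D ^ a) (chiq D ^ b)) =
      - ((((q - b) * Mq q p).choose (a * Mq q p) : ℕ) : ZMod p) := by
  have hM : 0 < Mq q p := M_posq D
  have hev : Even (a * Mq q p) := (M_evenq D).mul_left a
  rw [phi_jacq D (-1) (natCast_neq ha (by omega)) (natCast_neq hb (by omega)),
    exq_neg ha (by omega), exq_neg hb (by omega),
    sum_large (c := a * Mq q p) (Nat.mul_pos (by omega) hM), hev.neg_one_pow, one_mul]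
  · rw [← add_mul, Nat.sub_add_cancel (by omega)]; exact qM D
  · exact Nat.mul_le_mul_right _ (by omega)
  · rw [← qM D]
    exact Nat.mul_lt_mul_of_pos_right (by omega) hM

include D in
/-- **all binomial coefficients** -/
theorem choose_evalq {a b : ℕ} (ha : 1 ≤ a) (hb : 1 ≤ b) (hab : a + b < q) :
    ((((a + b) * Mq q p).choose (a * Mq q p) : ℕ) : ZMod p) =
      (legendreSym q (A - B) : ZMod p) *
        ∏ t ∈ (TQ q (a : ZMod q) (b : ZMod q))ᶜ, fac q A B (gg p A B) t := by
  have hM : 0 < Mq q p := M_posq D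
  have ha' := natCast_neq (q := q) ha (by omega)
  have hb' := natCast_neq (q := q) hb (by omega)
  have hab' : (a : ZMod q) + b ≠ 0 := by rw [← Nat.cast_add]; exact natCast_neq (by omega) hab
  have h1 := phi_jac_negq D ha hb hab.le
  rw [jac_exactq D ha' hb' hab', map_mul, map_neg, map_intCast, map_prod] at h1
  have h2 : ((q - b) * Mq q p) = p - 1 - b * Mq q p := by
    have := qM D
    rw [Nat.sub_mul]
    rw [← this]
    rfl
  have h3 : b * Mq q p + a * Mq q p < p := by
    rw [← add_mul]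
    have : (b + a) * Mq q p < q * Mq q p := Nat.mul_lt_mul_of_pos_right (by omega) hM
    have h4 : q * Mq q p = p - 1 := qM D
    omega
  have hev : Even (a * Mq q p) := (M_evenq D).mul_left a
  rw [h2, choose_reflect h3, hev.neg_one_pow, one_mul, ← add_mul, add_comm b a, neg_mul,
    neg_inj] at h1
  rw [← h1]
  congr 1
  refine Finset.prod_bij' (fun t _ => -t) (fun t _ => -t) ?_ ?_ ?_ ?_ ?_
  · intro t ht
    rw [Finset.mem_compl, neg_mem_TQ ha' hb' hab']
    exact not_not.mpr ht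
  · intro t ht
    rw [neg_mem_TQ ha' hb' hab']
    exact Finset.mem_compl.mp ht
  · intro t _; exact neg_neg t
  · intro t _; exact neg_neg t
  · intro t _
    rw [phiq_rho]

include D in
theorem fact_prod :
    ((Mq q p).factorial : ZMod p) ^ q *
      ∏ u ∈ Finset.Icc 1 (q - 2), ((((u + 1) * Mq q p).choose (u * Mq q p) : ℕ) : ZMod p) = -1 := by
  have hq3 := three_le D.h2
  have hM : 0 < Mq q p := M_posq D
  have step : ∀ k : ℕ, (((k + 1) * Mq q p).factorial : ℕ) =
      (Mq q p).factorial ^ (k + 1) *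
        ∏ u ∈ Finset.Icc 1 k, (((u + 1) * Mq q p).choose (u * Mq q p)) := by
    intro k
    induction k with
    | zero => simp
    | succ k ih =>
      rw [Finset.prod_Icc_succ_top (by omega), pow_succ, mul_mul_mul_comm, ← ih]
      have h1 := Nat.choose_mul_factorial_mul_factorial
        (show (k + 1) * Mq q p ≤ (k + 1 + 1) * Mq q p from Nat.mul_le_mul_right _ (by omega))
      rw [show (k + 1 + 1) * Mq q p - (k + 1) * Mq q p = Mq q p by
        rw [← Nat.sub_mul]; rw [show k + 1 + 1 - (k + 1) = 1 by omega, one_mul]] at h1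
      rw [← h1]
      ring
  have h1 := step (q - 2)
  rw [show q - 2 + 1 = q - 1 by omega] at h1
  have h2 := choose_reflect (p := p) (c := 0) (d := Mq q p) (by
    have h4 : q * Mq q p = p - 1 := qM D
    have : 1 * Mq q p ≤ q * Mq q p := Nat.mul_le_mul_right _ (by omega)
    have := D.hp.one_lt
    omega)
  have hev : Even (Mq q p) := M_evenq D
  rw [hev.neg_one_pow, Nat.sub_zero, zero_add, Nat.choose_self, Nat.cast_one, one_mul] at h2
  have h4 : q * Mq q p = p - 1 := qM D
  have h5 := Nat.choose_mul_factorial_mul_factorial (show Mq q p ≤ p - 1 by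
    rw [← h4]; exact Nat.le_mul_of_pos_left _ (by omega))
  rw [show p - 1 - Mq q p = (q - 1) * Mq q p by rw [← h4, Nat.sub_mul, one_mul], h1] at h5
  have h6 := congrArg (Nat.cast (R := ZMod p)) h5
  rw [ZMod.wilsons_lemma] at h6
  push_cast at h6
  rw [h2, one_mul] at h6
  rw [← h6]
  push_cast
  obtain ⟨q', hq'⟩ : ∃ q', q = q' + 1 := ⟨q - 1, by omega⟩
  have : ((Mq q p).factorial : ZMod p) ^ q = (Mq q p).factorial * (Mq q p).factorial ^ (q - 1) := by
    rw [← pow_succ']
    congr 1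
    omega
  rw [this]
  ring

end

section
variable {q : ℕ} [hq : Fact q.Prime]

theorem val_unit_pos (t : (ZMod q)ˣ) : 1 ≤ (t : ZMod q).val := by
  have h : (t : ZMod q).val ≠ 0 := by
    rw [Ne, ZMod.val_eq_zero]; exact unit_ne t
  omega

/-- for each `t` the number of `u` in `[1, q-2]` with `⟨tu⟩ + ⟨t⟩ ≥ q` -/
theorem card_u (h2 : q ≠ 2) (t : (ZMod q)ˣ) :
    ((Finset.Icc 1 (q - 2)).filter fun u : ℕ => t ∉ TQ q (u : ZMod q) ((1 : ℕ) : ZMod q)).card
      = (t : ZMod q).val - 1 := by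
  have hq3 := three_le h2
  have ht1 := val_unit_pos t
  have ht2 := ZMod.val_lt (t : ZMod q)
  have h3 : (Finset.Icc (q - (t : ZMod q).val + 1) (q - 1)).card = (t : ZMod q).val - 1 := by
    rw [Nat.card_Icc]; omega
  rw [← h3]
  have hneg : ((t : ZMod q) * ((q - 1 : ℕ) : ZMod q)).val = q - (t : ZMod q).val := by
    have e : (t : ZMod q) * ((q - 1 : ℕ) : ZMod q) = -(t : ZMod q) := by
      rw [Nat.cast_sub (by omega), ZMod.natCast_self, Nat.cast_one]; ring
    rw [e]
    have := val_neg_addq (unit_ne t)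
    omega
  refine Finset.card_bij' (fun u _ => ((t : ZMod q) * (u : ZMod q)).val)
    (fun w _ => (((t⁻¹ : (ZMod q)ˣ) : ZMod q) * (w : ZMod q)).val) ?_ ?_ ?_ ?_
  · intro u hu
    rw [mem_filter, mem_Icc, mem_TQ, Nat.cast_one, mul_one, not_lt] at hu
    obtain ⟨⟨hu1, hu2⟩, hu3⟩ := hu
    rw [mem_Icc]
    have h4 := ZMod.val_lt ((t : ZMod q) * (u : ZMod q))
    have h5 : ((t : ZMod q) * (u : ZMod q)).val ≠ q - (t : ZMod q).val := by
      intro h
      rw [← hneg] at h
      have h6 := ZMod.val_injective q h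
      have h7 := mul_left_cancel₀ (unit_ne t) h6
      have h8 := congrArg ZMod.val h7
      rw [ZMod.val_natCast_of_lt (by omega), ZMod.val_natCast_of_lt (by omega)] at h8
      omega
    constructor <;> omega
  · intro w hw
    rw [mem_Icc] at hw
    have hw0 := natCast_neq (q := q) (a := w) (by omega) (by omega)
    set u := (((t⁻¹ : (ZMod q)ˣ) : ZMod q) * (w : ZMod q)).val with hu
    have e : (t : ZMod q) * (u : ZMod q) = (w : ZMod q) := by
      rw [hu, ZMod.natCast_zmod_val, ← mul_assoc, ← Units.val_mul, mul_inv_cancel, Units.val_one,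
        one_mul]
    have hu1 : u < q := ZMod.val_lt _
    have hu2 : u ≠ 0 := by
      rw [hu, Ne, ZMod.val_eq_zero]
      exact unit_mul_ne _ hw0
    have hu3 : u ≠ q - 1 := by
      intro h
      rw [h] at e
      have := congrArg ZMod.val e
      rw [hneg, ZMod.val_natCast_of_lt (by omega)] at this
      omega
    rw [mem_filter, mem_Icc, mem_TQ, Nat.cast_one, mul_one, not_lt, e,
      ZMod.val_natCast_of_lt (by omega)]
    refine ⟨⟨by omega, by omega⟩, by omega⟩
  · intro u hu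
    rw [mem_filter, mem_Icc] at hu
    rw [ZMod.natCast_zmod_val, ← mul_assoc, ← Units.val_mul, inv_mul_cancel, Units.val_one,
      one_mul, ZMod.val_natCast_of_lt (by omega)]
  · intro w hw
    rw [mem_Icc] at hw
    rw [ZMod.natCast_zmod_val, ← mul_assoc, ← Units.val_mul, mul_inv_cancel, Units.val_one,
      one_mul, ZMod.val_natCast_of_lt (by omega)]

theorem sum_units_zero (h2 : q ≠ 2) : ∑ t : (ZMod q)ˣ, ((t⁻¹ : (ZMod q)ˣ) : ZMod q) = 0 := by
  have h1 : ∑ t : (ZMod q)ˣ, ((t⁻¹ : (ZMod q)ˣ) : ZMod q)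
      = ∑ t : (ZMod q)ˣ, -((t⁻¹ : (ZMod q)ˣ) : ZMod q) := by
    refine Fintype.sum_equiv (Equiv.neg _) _ _ ?_
    intro t
    rw [Equiv.neg_apply, inv_neg, Units.val_neg, neg_neg]
  rw [Finset.sum_neg_distrib] at h1
  have h3 : (2 : ZMod q) * ∑ t : (ZMod q)ˣ, ((t⁻¹ : (ZMod q)ˣ) : ZMod q) = 0 := by
    linear_combination h1
  rcases mul_eq_zero.mp h3 with h | h
  · exfalso
    have h4 : ((2 : ℕ) : ZMod q) = 0 := by exact_mod_cast h
    rw [ZMod.natCast_eq_zero_iff] at h4
    have := Nat.le_of_dvd (by norm_num) h4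
    have := three_le h2
    omega
  · exact h

theorem E_sum {R : Type*} [CommRing R] {y : R} (h : y ^ q = 1) {ι : Type*} (s : Finset ι)
    (f : ι → ZMod q) : ∏ i ∈ s, E y (f i) = E y (∑ i ∈ s, f i) := by
  classical
  induction s using Finset.induction_on with
  | empty => simp [E_zero]
  | insert a s ha ih => rw [Finset.prod_insert ha, Finset.sum_insert ha, E_add h, ih]

theorem E_pow_nat {R : Type*} [CommRing R] {y : R} (h : y ^ q = 1) (c : ZMod q) (n : ℕ) :
    E y c ^ n = E y (c * (n : ZMod q)) := by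
  rw [E, E, ← pow_mul, ZMod.val_mul, ZMod.val_natCast, pow_mod_of_pow_eq_one h, pow_mul, pow_mul]
  conv_lhs => rw [← Nat.div_add_mod n q, pow_add, pow_mul, ← pow_mul y, mul_comm c.val q, pow_mul y,
    h, one_pow, one_pow, one_mul]

/-- collecting the powers of `g` -/
theorem prod_fac {R : Type*} [CommRing R] {g : R} (hg : g ^ q = 1) (h2 : q ≠ 2) (A B : ℤ) :
    ∏ t : (ZMod q)ˣ, fac q A B g t ^ ((t : ZMod q).val - 1) =
      E g (-bet q A B) * ∏ t : (ZMod q)ˣ,
        ((A : R) - (B : R) * E g ((t⁻¹ : (ZMod q)ˣ) : ZMod q)) ^ ((t : ZMod q).val - 1) := by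
  simp_rw [fac, mul_pow]
  rw [Finset.prod_mul_distrib]
  congr 1
  simp_rw [E_pow_nat hg]
  rw [E_sum hg]
  congr 1
  have h1 : ∀ t : (ZMod q)ˣ, bet q A B * ((t⁻¹ : (ZMod q)ˣ) : ZMod q) *
      (((t : ZMod q).val - 1 : ℕ) : ZMod q) = bet q A B - bet q A B * ((t⁻¹ : (ZMod q)ˣ) : ZMod q) := by
    intro t
    rw [Nat.cast_sub (val_unit_pos t), ZMod.natCast_zmod_val, Nat.cast_one]
    have : ((t⁻¹ : (ZMod q)ˣ) : ZMod q) * (t : ZMod q) = 1 := by
      rw [← Units.val_mul, inv_mul_cancel, Units.val_one]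
    linear_combination (bet q A B) * this
  simp_rw [h1]
  rw [Finset.sum_sub_distrib, ← Finset.mul_sum, sum_units_zero h2, mul_zero, sub_zero,
    Finset.sum_const, Finset.card_univ, ZMod.card_units_eq_totient, Nat.totient_prime hq.out,
    nsmul_eq_mul, Nat.cast_sub hq.out.one_lt.le, ZMod.natCast_self, Nat.cast_one]
  ring

end

section
variable {q : ℕ} [hq : Fact q.Prime] {p : ℕ} [hpf : Fact p.Prime] {A B : ℤ} (D : Dat q p A B)

include D in
/-- **the factorial** -/
theorem fact_evalq :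
    ((Mq q p).factorial : ZMod p) ^ q * E (gg p A B) (-bet q A B) *
      ∏ t : (ZMod q)ˣ, ((A : ZMod p) - (B : ZMod p) * E (gg p A B) ((t⁻¹ : (ZMod q)ˣ) : ZMod q)) ^
        ((t : ZMod q).val - 1) = -(legendreSym q (A - B) : ZMod p) := by
  have hq3 := three_le D.h2
  have h1 := fact_prod D
  have h2 : ∏ u ∈ Finset.Icc 1 (q - 2), ((((u + 1) * Mq q p).choose (u * Mq q p) : ℕ) : ZMod p)
      = (legendreSym q (A - B) : ZMod p) ^ (q - 2) *
        ∏ t : (ZMod q)ˣ, fac q A B (gg p A B) t ^ ((t : ZMod q).val - 1) := by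
    rw [Finset.prod_congr rfl fun u hu => choose_evalq D (mem_Icc.mp hu).1 (le_refl 1)
      (by have := (mem_Icc.mp hu).2; omega)]
    rw [Finset.prod_mul_distrib, Finset.prod_const, Nat.card_Icc, show q - 2 + 1 - 1 = q - 2 by omega]
    congr 1
    have h3 : ∀ u ∈ Finset.Icc 1 (q - 2),
        ∏ t ∈ (TQ q (u : ZMod q) ((1 : ℕ) : ZMod q))ᶜ, fac q A B (gg p A B) t
        = ∏ t : (ZMod q)ˣ, (if t ∉ TQ q (u : ZMod q) ((1 : ℕ) : ZMod q)
          then fac q A B (gg p A B) t else 1) := by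
      intro u _
      rw [← Finset.prod_filter]
      congr 1
      ext t
      simp
    rw [Finset.prod_congr rfl h3, Finset.prod_comm]
    apply Finset.prod_congr rfl
    intro t _
    rw [← Finset.prod_filter, Finset.prod_const, card_u D.h2 t]
  rw [h2, prod_fac (gg_pow D) D.h2] at h1
  have h4 : (legendreSym q (A - B) : ZMod p) ^ (q - 2) = (legendreSym q (A - B) : ZMod p) := by
    have hodd : Odd (q - 2) := by
      obtain ⟨m, hm⟩ := q_odd D.h2
      exact ⟨m - 1, by omega⟩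
    rcases leg_cases D with h | h
    · rw [h]; simp
    · rw [h]; push_cast; exact hodd.neg_one_pow
  have h5 : (legendreSym q (A - B) : ZMod p) * (legendreSym q (A - B) : ZMod p) = 1 := by
    rcases leg_cases D with h | h <;> rw [h] <;> simp
  rw [h4] at h1
  linear_combination (legendreSym q (A - B) : ZMod p) * h1 - (((Mq q p).factorial : ZMod p) ^ q *
    E (gg p A B) (-bet q A B) *
      ∏ t : (ZMod q)ˣ, ((A : ZMod p) - (B : ZMod p) * E (gg p A B) ((t⁻¹ : (ZMod q)ˣ) : ZMod q)) ^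
        ((t : ZMod q).val - 1)) * h5

end

/-! composite numbers -/

section
variable {q : ℕ} [hq : Fact q.Prime] {A B : ℤ} {N : ℕ}

/-- the prime factors of `(A^q - B^q)/(A - B)` are `1` modulo `q` -/
theorem factor_mod (hc : IsCoprime A B) (hn : ¬ (q : ℤ) ∣ A - B)
    (hN : (A - B) * N = A ^ q - B ^ q) {r : ℕ} (hr : r.Prime) (hrN : r ∣ N) : q ∣ r - 1 := by
  have : Fact r.Prime := ⟨hr⟩
  have hr' := Nat.prime_iff_prime_int.mp hr
  have hrN' : (r : ℤ) ∣ N := by exact_mod_cast hrN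
  have hrB : ¬ (r : ℤ) ∣ B := by
    intro h
    have h1 : (r : ℤ) ∣ A ^ q := by
      have h2 : (r : ℤ) ∣ B ^ q := dvd_pow h hq.out.ne_zero
      have h3 : (r : ℤ) ∣ A ^ q - B ^ q := hN ▸ Dvd.dvd.mul_left hrN' _
      have := dvd_add h3 h2
      rwa [sub_add_cancel] at this
    exact hr'.not_isUnit (hc.isUnit_of_dvd' (hr'.dvd_of_dvd_pow h1) h)
  have hB0 : (B : ZMod r) ≠ 0 := by
    rw [Ne, ZMod.intCast_zmod_eq_zero_iff_dvd]; exact hrB
  set g : ZMod r := (A : ZMod r) * (B : ZMod r)⁻¹ with hg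
  have hgB : g * (B : ZMod r) = A := by rw [hg, mul_assoc, inv_mul_cancel₀ hB0, mul_one]
  have hgq : g ^ q = 1 := by
    have h2 := congrArg (Int.cast (R := ZMod r)) hN
    push_cast at h2
    have h0 : (N : ZMod r) = 0 := (ZMod.natCast_eq_zero_iff _ _).mpr hrN
    rw [h0, mul_zero] at h2
    apply mul_right_cancel₀ (pow_ne_zero q hB0)
    rw [← mul_pow, hgB, one_mul]
    linear_combination -h2
  have hg1 : g ≠ 1 := by
    intro h
    rw [h, one_mul] at hgB
    have hsub : (r : ℤ) ∣ A - B := by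
      rw [← ZMod.intCast_zmod_eq_zero_iff_dvd]
      push_cast
      rw [hgB, sub_self]
    have hne := sub_ne hn
    have h1 := (Commute.all A B).geom_sum₂_mul q
    have h3 : (N : ℤ) = ∑ i ∈ range q, A ^ i * B ^ (q - 1 - i) := by
      apply mul_left_cancel₀ hne
      rw [hN, ← h1, mul_comm]
    have h4 : (r : ℤ) ∣ ∑ i ∈ range q, (A ^ i * B ^ (q - 1 - i) - B ^ (q - 1)) := by
      apply Finset.dvd_sum
      intro i hi
      rw [mem_range] at hi
      have e : A ^ i * B ^ (q - 1 - i) - B ^ (q - 1) = (A ^ i - B ^ i) * B ^ (q - 1 - i) := by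
        rw [sub_mul, ← pow_add, show i + (q - 1 - i) = q - 1 by omega]
      rw [e]
      exact Dvd.dvd.mul_right (dvd_trans hsub (sub_dvd_pow_sub_pow A B i)) _
    rw [Finset.sum_sub_distrib, ← h3, Finset.sum_const, card_range, nsmul_eq_mul] at h4
    have h5 : (r : ℤ) ∣ (q : ℤ) * B ^ (q - 1) := by
      have := dvd_sub hrN' h4
      rwa [sub_sub_cancel] at this
    rcases hr'.dvd_or_dvd h5 with h6 | h6
    · have h7 : r ∣ q := by exact_mod_cast h6
      have h8 : r = q := (Nat.prime_dvd_prime_iff_eq hr hq.out).mp h7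
      rw [h8] at hrN'
      have h9 := q_dvd_sub_one hn hN
      have h10 := dvd_sub hrN' h9
      rw [sub_sub_cancel] at h10
      exact (Nat.prime_iff_prime_int.mp hq.out).not_isUnit (isUnit_of_dvd_one h10)
    · exact hrB (hr'.dvd_of_dvd_pow h6)
  have h1 : orderOf g = q := orderOf_eq_prime hgq hg1
  have hg0 : g ≠ 0 := by
    intro h
    rw [h, zero_pow hq.out.ne_zero] at hgq
    exact zero_ne_one hgq
  rw [← h1]
  exact orderOf_dvd_of_pow_eq_one (ZMod.pow_card_sub_one_eq_one hg0)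

theorem prime_of_unitq (hc : IsCoprime A B) (hn : ¬ (q : ℤ) ∣ A - B)
    (hN : (A - B) * N = A ^ q - B ^ q) (hN1 : 1 < N)
    (h : IsUnit ((((N - 1) / q).factorial : ℕ) : ZMod N)) : N.Prime := by
  by_contra hcomp
  set r := N.minFac with hr
  have hrp : r.Prime := Nat.minFac_prime (by omega)
  have hrN : r ∣ N := Nat.minFac_dvd N
  obtain ⟨s, hs⟩ := hrN
  have hs1 : 1 < s := by
    rcases Nat.lt_or_ge 1 s with h | h
    · exact h
    · exfalso
      have : s = 1 := by
        rcases Nat.eq_zero_or_pos s with h0 | h0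
        · rw [h0, mul_zero] at hs; omega
        · omega
      rw [this, mul_one] at hs
      exact hcomp (hs ▸ hrp)
  have hr' : s.minFac.Prime := Nat.minFac_prime (by omega)
  have h3 := factor_mod hc hn hN hr' (dvd_trans (Nat.minFac_dvd s) (hs ▸ dvd_mul_left s r))
  have h4 : q < s := by
    have h5 := Nat.le_of_dvd (by have := hr'.one_lt; omega) h3
    have h6 := Nat.minFac_le (show 0 < s by omega)
    have := hr'.one_lt
    omega
  have h5 : r * q < N := by
    rw [hs]
    exact Nat.mul_lt_mul_of_pos_left h4 hrp.pos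
  have h6 : r ≤ (N - 1) / q := by
    rw [Nat.le_div_iff_mul_le hq.out.pos]
    omega
  have h7 : r ∣ ((N - 1) / q).factorial := (Nat.Prime.dvd_factorial hrp).mpr h6
  rw [ZMod.isUnit_iff_coprime] at h
  have h8 : r ∣ Nat.gcd ((N - 1) / q).factorial N := Nat.dvd_gcd h7 (Nat.minFac_dvd N)
  rw [Nat.Coprime] at h
  rw [h] at h8
  exact hrp.one_lt.ne' (Nat.dvd_one.mp h8)

end

end Pool.Agent.H140.JQ
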