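import Pool.Agent.H140.FJ.Red

/-! Arithmetic of `ℤ[ζ]`, `ζ` of odd prime order `q`. -/

namespace Pool.Agent.H140.JQ

open NumberField Finset Polynomial Pool.Agent.H140.FJ

/-- the cyclotomic field of level `q` -/
abbrev Kq (q : ℕ) := CyclotomicField q ℚ

/-- its ring of integers -/
abbrev Oq (q : ℕ) := 𝓞 (Kq q)

section
variable (q : ℕ) [hq : Fact q.Prime]

instance instNZq : NeZero q := ⟨hq.out.ne_zero⟩

instance instNZQ : NeZero ((q : ℕ) : ℚ) := ⟨by exact_mod_cast hq.out.ne_zero⟩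

instance instCycq : IsCyclotomicExtension {q} ℚ (Kq q) :=
  CyclotomicField.isCyclotomicExtension _ _

/-- the primitive root of unity in the ring of integers -/
noncomputable def zq : Oq q :=
  (IsCyclotomicExtension.zeta_spec q ℚ (Kq q)).toInteger

theorem zq_prim : IsPrimitiveRoot (zq q) q :=
  (IsCyclotomicExtension.zeta_spec q ℚ (Kq q)).toInteger_isPrimitiveRoot

theorem zq_full : zq q ^ q = 1 := (zq_prim q).pow_eq_one

theorem geom_zero {R : Type*} [CommRing R] [IsDomain R] {y : R} {n : ℕ} (h1 : y ^ n = 1)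
    (h2 : y ≠ 1) : ∑ i ∈ range n, y ^ i = 0 := by
  have h := mul_geom_sum y n
  rw [h1, sub_self] at h
  rcases mul_eq_zero.mp h with h | h
  · exact absurd (sub_eq_zero.mp h) h2
  · exact h

theorem zq_sum : ∑ i ∈ range q, zq q ^ i = 0 :=
  geom_zero (zq_full q) ((zq_prim q).ne_one hq.out.one_lt)

/-- ring homomorphisms out of `ℤ[ζ]` -/
theorem exists_liftq {S : Type*} [CommRing S] (y : S) (hy : ∑ i ∈ range q, y ^ i = 0) :
    ∃ φ : Oq q →+* S, φ (zq q) = y := by
  let pb := (IsCyclotomicExtension.zeta_spec q ℚ (Kq q)).integralPowerBasis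
  have hgen : pb.gen = zq q := IsPrimitiveRoot.integralPowerBasis_gen _
  have hmin : minpoly ℤ pb.gen = cyclotomic q ℤ := by
    rw [hgen]
    have h1 := cyclotomic_eq_minpoly (IsCyclotomicExtension.zeta_spec q ℚ (Kq q)) hq.out.pos
    rw [h1, ← minpoly.algebraMap_eq (RingOfIntegers.coe_injective) (zq q)]
    rfl
  have ha : aeval y (minpoly ℤ pb.gen) = 0 := by
    rw [hmin, cyclotomic_prime, map_sum]
    simp only [map_pow, aeval_X]
    exact hy
  refine ⟨(pb.lift y ha : Oq q →ₐ[ℤ] S), ?_⟩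
  have := pb.lift_gen y ha
  rw [hgen] at this
  exact this

theorem exists_polyq (x : Oq q) : ∃ f : ℤ[X], x = aeval (zq q) f := by
  let pb := (IsCyclotomicExtension.zeta_spec q ℚ (Kq q)).integralPowerBasis
  have hgen : pb.gen = zq q := IsPrimitiveRoot.integralPowerBasis_gen _
  obtain ⟨f, hf⟩ := pb.exists_eq_aeval' x
  exact ⟨f, by rw [hf, hgen]⟩

variable {q}

theorem E_pow_ne {R : Type*} [CommRing R] {y : R} (hy : IsPrimitiveRoot y q) {c : ZMod q}
    (hc : c ≠ 0) : E y c ≠ 1 := by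
  intro h
  have h1 := (hy.pow_eq_one_iff_dvd c.val).mp h
  have h2 := ZMod.val_lt c
  have h3 : c.val ≠ 0 := by rwa [Ne, ZMod.val_eq_zero]
  exact h3 (Nat.eq_zero_of_dvd_of_lt h1 h2)

theorem E_pow_q {R : Type*} [CommRing R] {y : R} (hy : y ^ q = 1) (c : ZMod q) :
    E y c ^ q = 1 := by
  rw [E, ← pow_mul, mul_comm, pow_mul, hy, one_pow]

theorem geom_E {R : Type*} [CommRing R] [IsDomain R] {y : R} (hy : IsPrimitiveRoot y q)
    {c : ZMod q} (hc : c ≠ 0) : ∑ i ∈ range q, E y c ^ i = 0 :=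
  geom_zero (E_pow_q hy.pow_eq_one c) (E_pow_ne hy hc)

theorem sub_one_dvd {c : ZMod q} (hc : c ≠ 0) : E (zq q) c - 1 ∣ (q : Oq q) := by
  have h := geom_E (zq_prim q) hc
  have h2 : (q : Oq q) = - ∑ i ∈ range q, (E (zq q) c ^ i - 1) := by
    rw [Finset.sum_sub_distrib, h, Finset.sum_const, card_range, nsmul_eq_mul, mul_one]
    ring
  rw [h2, dvd_neg]
  apply Finset.dvd_sum
  intro i _
  have := sub_dvd_pow_sub_pow (E (zq q) c) 1 i
  rwa [one_pow] at this

theorem sub_dvd_q {a b : ZMod q} (h : a ≠ b) : E (zq q) a - E (zq q) b ∣ (q : Oq q) := by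
  have hc : a - b ≠ 0 := sub_ne_zero.mpr h
  have e1 : E (zq q) a - E (zq q) b = E (zq q) b * (E (zq q) (a - b) - 1) := by
    rw [mul_sub, ← E_add (zq_full q)]; simp
  rw [e1, (E_isUnit (zq_full q) b).mul_left_dvd]
  exact sub_one_dvd hc

theorem unit_ne (t : (ZMod q)ˣ) : (t : ZMod q) ≠ 0 := t.ne_zero

/-- the product over all classes -/
theorem prod_all {R : Type*} [CommRing R] [IsDomain R] {y : R} (hy : IsPrimitiveRoot y q)
    (A B : R) : ∏ c : ZMod q, (A - B * E y c) = A ^ q - B ^ q := by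
  have h := hy.pow_sub_pow_eq_prod_sub_mul A B hq.out.pos
  rw [h]
  refine Finset.prod_bij (fun c _ => E y c) ?_ ?_ ?_ ?_
  · intro c _
    rw [mem_nthRootsFinset hq.out.pos]
    exact E_pow_q hy.pow_eq_one c
  · intro a _ b _ hab
    have h1 := hy.pow_inj (ZMod.val_lt a) (ZMod.val_lt b) hab
    exact ZMod.val_injective q h1
  · intro x hx
    rw [mem_nthRootsFinset hq.out.pos] at hx
    obtain ⟨i, hi, hix⟩ := hy.eq_pow_of_pow_eq_one hx
    exact ⟨(i : ZMod q), mem_univ _, by rw [E, ZMod.val_natCast_of_lt hi, hix]⟩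
  · intro c _
    ring

/-- the product over the units -/
theorem prod_unitsq {R : Type*} [CommRing R] [IsDomain R] {y : R} (hy : IsPrimitiveRoot y q)
    (A B : R) : (A - B) * ∏ t : (ZMod q)ˣ, (A - B * E y (t : ZMod q)) = A ^ q - B ^ q := by
  rw [← prod_all hy A B, ← Finset.mul_prod_erase univ _ (mem_univ (0 : ZMod q)), E_zero, mul_one]
  congr 1
  refine Finset.prod_bij (fun t _ => (t : ZMod q)) ?_ ?_ ?_ ?_
  · intro t _
    exact mem_erase.mpr ⟨unit_ne t, mem_univ _⟩
  · intro a _ b _ hab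
    exact Units.ext hab
  · intro c hc
    exact ⟨Units.mk0 c (ne_of_mem_erase hc), mem_univ _, rfl⟩
  · intro c _; rfl

end

end Pool.Agent.H140.JQ
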